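import Pool.Agent.Helper33.MRC.Defs

/-!
# MRC-X11: iterating the slow variation of the law

Proof. `law_iter`: induction on `s` for `d = 1` (`x / 1 = x`): `up (s+1) b = up 1 (up s b)` up to
`m + (s+1) = (m+1) + s`, apply `LAWx` to `up s b`. Then the second part of `LAWx` for `up s b`.
-/

set_option autoImplicit false

namespace MRC

open Finset MRP MRB

theorem abs_mA_le (x : ℕ) (b : ℕ → ℝ) (hb : ∀ m, |b m| ≤ 1) : |mA x b| ≤ 1 := by
  have h0 : (0 : ℝ) ≤ (x : ℝ) := Nat.cast_nonneg x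
  rw [mA, abs_div, abs_of_nonneg h0]
  refine div_le_one_of_le₀ ?_ h0
  refine (Finset.abs_sum_le_sum_abs _ _).trans ?_
  refine (Finset.sum_le_sum (fun n _ => hb (Om n))).trans ?_
  simp

private theorem law_iter_one (h : LAWx) (s : ℕ) : ∀ (ε : ℝ), 0 < ε →
    ∃ x0 : ℕ, ∀ x : ℕ, x0 ≤ x → ∀ b : ℕ → ℝ, (∀ m, |b m| ≤ 1) →
      |mA x (up s b) - mA x b| ≤ ε := by
  induction s with
  | zero =>
    intro ε hε
    refine ⟨0, fun x _ b _ => ?_⟩
    have h1 : up 0 b = b := by
      funext m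
      simp [up]
    rw [h1, sub_self, abs_zero]
    exact hε.le
  | succ s ih =>
    intro ε hε
    obtain ⟨x1, h1⟩ := ih (ε / 2) (by positivity)
    obtain ⟨x2, h2⟩ := h (ε / 2) 1 (by positivity) le_rfl
    refine ⟨max x1 x2, fun x hx b hb => ?_⟩
    have h3 := h1 x ((le_max_left _ _).trans hx) b hb
    have h4 := (h2 x ((le_max_right _ _).trans hx) (up s b) (fun m => hb _)).1
    have h5 : up (s + 1) b = up 1 (up s b) := by
      funext m
      simp only [up]
      congr 1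
      omega
    rw [h5]
    have h6 : mA x (up 1 (up s b)) - mA x b =
        (mA x (up 1 (up s b)) - mA x (up s b)) + (mA x (up s b) - mA x b) := by ring
    rw [h6]
    refine (abs_add_le _ _).trans ?_
    linarith

theorem law_iter (h : LAWx) (s d : ℕ) (hd : 1 ≤ d) (ε : ℝ) (hε : 0 < ε) :
    ∃ x0 : ℕ, ∀ x : ℕ, x0 ≤ x → ∀ b : ℕ → ℝ, (∀ m, |b m| ≤ 1) →
      |mA (x / d) (up s b) - mA x b| ≤ ε := by
  obtain ⟨x1, h1⟩ := law_iter_one h s (ε / 2) (by positivity)
  obtain ⟨x2, h2⟩ := h (ε / 2) d (by positivity) hd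
  refine ⟨max x1 x2, fun x hx b hb => ?_⟩
  have h3 := h1 x ((le_max_left _ _).trans hx) b hb
  have h4 := (h2 x ((le_max_right _ _).trans hx) (up s b) (fun m => hb _)).2
  have h6 : mA (x / d) (up s b) - mA x b =
      (mA (x / d) (up s b) - mA x (up s b)) + (mA x (up s b) - mA x b) := by ring
  rw [h6]
  refine (abs_add_le _ _).trans ?_
  linarith

end MRC
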