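import Pool.Agent.Helper33.MRC.Defs

/-!
# MRC-X12: short sums over multiples of `d`

Proof. The terms with `n < d`: the sum has at most `H` terms `≤ 2` and `|v| ≤ 2H`, so they contribute at
most `4 d H`. For `n ≥ d` write `n = d n' + s`, `0 ≤ s < d`, `1 ≤ n' ≤ x/d`. The `j ∈ [1,H]` with
`d ∣ n + j` correspond to the `m = (n+j)/d` with
`n' + 1 ≤ m ≤ ⌊(n+H)/d⌋ = n' + ⌊(s+H)/d⌋`, and `⌊H/d⌋ ≤ ⌊(s+H)/d⌋ ≤ ⌊H/d⌋ + 1`. So the inner sum differs
from `∑_{j ≤ H/d} g(n'+j)` by at most one term, i.e. by at most `2`. Sum over `s < d` and `n' ≤ x/d`: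
`d ∑_{n'≤x/d} (|∑_{j≤H/d} g(n'+j) - v| + 2)`, and `2 d (x/d) ≤ 2x`.
-/

set_option autoImplicit false

namespace MRC

open Finset MRP MRB

private theorem inner_eq (d H n : ℕ) (hd : 1 ≤ d) (g : ℕ → ℝ) :
    (∑ j ∈ (Finset.Icc 1 H).filter (fun j => d ∣ n + j), g ((n + j) / d)) =
      ∑ i ∈ Finset.Icc 1 ((n + H) / d - n / d), g (n / d + i) := by
  have hn : d * (n / d) ≤ n := Nat.mul_div_le n d
  have hn2 : n < d * (n / d + 1) := Nat.lt_mul_div_succ n hd
  refine Finset.sum_nbij' (fun j => (n + j) / d - n / d) (fun i => d * (n / d + i) - n)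
    ?_ ?_ ?_ ?_ ?_
  · intro j hj
    simp only [Finset.mem_filter, Finset.mem_Icc] at hj ⊢
    obtain ⟨⟨h1, h2⟩, c, hc⟩ := hj
    have h3 : (n + j) / d = c := by rw [hc]; exact Nat.mul_div_cancel_left c hd
    rw [h3]
    have h4 : d * (n / d) < d * c := by omega
    have h5 : n / d < c := Nat.lt_of_mul_lt_mul_left h4
    have h6 : c ≤ (n + H) / d := by
      rw [← h3]
      exact Nat.div_le_div_right (by omega)
    omega
  · intro i hi
    simp only [Finset.mem_filter, Finset.mem_Icc] at hi ⊢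
    obtain ⟨h1, h2⟩ := hi
    have h3 : d * (n / d + 1) ≤ d * (n / d + i) := Nat.mul_le_mul_left d (by omega)
    have h4 : d * (n / d + i) ≤ d * ((n + H) / d) := Nat.mul_le_mul_left d (by omega)
    have h5 : d * ((n + H) / d) ≤ n + H := Nat.mul_div_le _ d
    refine ⟨⟨by omega, by omega⟩, n / d + i, by omega⟩
  · intro j hj
    simp only [Finset.mem_filter, Finset.mem_Icc] at hj
    obtain ⟨⟨h1, h2⟩, c, hc⟩ := hj
    have h3 : (n + j) / d = c := by rw [hc]; exact Nat.mul_div_cancel_left c hd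
    have h4 : d * (n / d) < d * c := by omega
    have h5 : n / d < c := Nat.lt_of_mul_lt_mul_left h4
    have h6 : n / d + (c - n / d) = c := by omega
    show d * (n / d + ((n + j) / d - n / d)) - n = j
    rw [h3, h6]
    omega
  · intro i hi
    simp only [Finset.mem_Icc] at hi
    obtain ⟨h1, h2⟩ := hi
    have h3 : d * (n / d + 1) ≤ d * (n / d + i) := Nat.mul_le_mul_left d (by omega)
    have h4 : n + (d * (n / d + i) - n) = d * (n / d + i) := by omega
    show (n + (d * (n / d + i) - n)) / d - n / d = i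
    rw [h4, Nat.mul_div_cancel_left _ hd]
    omega
  · intro j hj
    simp only [Finset.mem_filter, Finset.mem_Icc] at hj
    obtain ⟨⟨h1, h2⟩, c, hc⟩ := hj
    have h3 : (n + j) / d = c := by rw [hc]; exact Nat.mul_div_cancel_left c hd
    have h4 : d * (n / d) < d * c := by omega
    have h5 : n / d < c := Nat.lt_of_mul_lt_mul_left h4
    have h6 : n / d + (c - n / d) = c := by omega
    show g ((n + j) / d) = g (n / d + ((n + j) / d - n / d))
    rw [h3, h6]

private theorem inner_le (d H n : ℕ) (hd : 1 ≤ d) (g : ℕ → ℝ) (hg : ∀ m, |g m| ≤ 2) (v : ℝ) :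
    |(∑ j ∈ (Finset.Icc 1 H).filter (fun j => d ∣ n + j), g ((n + j) / d)) - v| ≤
      |(∑ j ∈ Finset.Icc 1 (H / d), g (n / d + j)) - v| + 2 := by
  rw [inner_eq d H n hd g, Nat.add_div hd]
  split_ifs with hc
  · have h1 : n / d + H / d + 1 - n / d = H / d + 1 := by
      rw [Nat.add_assoc, Nat.add_sub_cancel_left]
    rw [h1, Finset.sum_Icc_succ_top (Nat.succ_pos _)]
    have h2 := hg (n / d + (H / d + 1))
    have h3 : (∑ k ∈ Finset.Icc 1 (H / d), g (n / d + k)) + g (n / d + (H / d + 1)) - v =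
      ((∑ k ∈ Finset.Icc 1 (H / d), g (n / d + k)) - v) + g (n / d + (H / d + 1)) := by ring
    rw [h3]
    exact (abs_add_le _ _).trans (by linarith)
  · have h1 : n / d + H / d + 0 - n / d = H / d := by
      rw [Nat.add_zero, Nat.add_sub_cancel_left]
    rw [h1]
    linarith

private theorem triv_le (d H n : ℕ) (g : ℕ → ℝ) (hg : ∀ m, |g m| ≤ 2) (v : ℝ)
    (hv : |v| ≤ 2 * H) :
    |(∑ j ∈ (Finset.Icc 1 H).filter (fun j => d ∣ n + j), g ((n + j) / d)) - v| ≤ 4 * H := by
  have h1 : |∑ j ∈ (Finset.Icc 1 H).filter (fun j => d ∣ n + j), g ((n + j) / d)| ≤ 2 * H := by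
    calc |∑ j ∈ (Finset.Icc 1 H).filter (fun j => d ∣ n + j), g ((n + j) / d)|
        ≤ ∑ j ∈ (Finset.Icc 1 H).filter (fun j => d ∣ n + j), |g ((n + j) / d)| :=
          Finset.abs_sum_le_sum_abs _ _
      _ ≤ ∑ j ∈ (Finset.Icc 1 H).filter (fun j => d ∣ n + j), (2 : ℝ) :=
          Finset.sum_le_sum fun j _ => hg _
      _ = ((Finset.Icc 1 H).filter (fun j => d ∣ n + j)).card * 2 := by
          rw [Finset.sum_const, nsmul_eq_mul]
      _ ≤ (H : ℝ) * 2 := by
          have h2 : ((Finset.Icc 1 H).filter (fun j => d ∣ n + j)).card ≤ H := by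
            have := Finset.card_filter_le (Finset.Icc 1 H) (fun j => d ∣ n + j)
            simpa using this
          have h3 : (((Finset.Icc 1 H).filter (fun j => d ∣ n + j)).card : ℝ) ≤ H := by
            exact_mod_cast h2
          linarith
      _ = 2 * H := by ring
  exact (abs_sub _ _).trans (by linarith)

private theorem fib_le (d x : ℕ) (hd : 1 ≤ d) (F : ℕ → ℝ) (hF : ∀ m, 0 ≤ F m) :
    ∑ n ∈ (Finset.Icc 1 x).filter (fun n => d ≤ n), F (n / d) ≤
      d * ∑ m ∈ Finset.Icc 1 (x / d), F m := by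
  have hmap : ∀ n ∈ (Finset.Icc 1 x).filter (fun n => d ≤ n), n / d ∈ Finset.Icc 1 (x / d) := by
    intro n hn
    simp only [Finset.mem_filter, Finset.mem_Icc] at hn ⊢
    exact ⟨(Nat.one_le_div_iff hd).2 hn.2, Nat.div_le_div_right hn.1.2⟩
  rw [← Finset.sum_fiberwise_of_maps_to hmap, Finset.mul_sum]
  refine Finset.sum_le_sum fun m hm => ?_
  have h1 : ∑ n ∈ ((Finset.Icc 1 x).filter (fun n => d ≤ n)).filter (fun n => n / d = m),
      F (n / d) = ∑ n ∈ ((Finset.Icc 1 x).filter (fun n => d ≤ n)).filter (fun n => n / d = m),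
      F m := by
    refine Finset.sum_congr rfl fun n hn => ?_
    rw [(Finset.mem_filter.1 hn).2]
  rw [h1, Finset.sum_const, nsmul_eq_mul]
  have h2 : (((Finset.Icc 1 x).filter (fun n => d ≤ n)).filter (fun n => n / d = m)).card ≤ d := by
    calc (((Finset.Icc 1 x).filter (fun n => d ≤ n)).filter (fun n => n / d = m)).card
        ≤ (Finset.Ico (d * m) (d * m + d)).card := by
          refine Finset.card_le_card fun n hn => ?_
          have h3 := (Finset.mem_filter.1 hn).2
          rw [Finset.mem_Ico]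
          have h4 : d * (n / d) ≤ n := Nat.mul_div_le n d
          have h5 : n < d * (n / d + 1) := Nat.lt_mul_div_succ n hd
          rw [h3] at h4 h5
          rw [Nat.mul_add] at h5
          omega
      _ = d := by simp
  exact mul_le_mul_of_nonneg_right (by exact_mod_cast h2) (hF m)

theorem dilate_x (d H x : ℕ) (hd : 1 ≤ d) (g : ℕ → ℝ) (hg : ∀ m, |g m| ≤ 2) (v : ℝ)
    (hv : |v| ≤ 2 * H) :
    ∑ n ∈ Finset.Icc 1 x,
        |(∑ j ∈ (Finset.Icc 1 H).filter (fun j => d ∣ n + j), g ((n + j) / d)) - v| ≤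
      d * ∑ n ∈ Finset.Icc 1 (x / d), |(∑ j ∈ Finset.Icc 1 (H / d), g (n + j)) - v| +
        2 * x + 4 * d * H := by
  rw [← Finset.sum_filter_add_sum_filter_not (Finset.Icc 1 x) (fun n => d ≤ n)]
  have h1 : ∑ n ∈ (Finset.Icc 1 x).filter (fun n => d ≤ n),
      |(∑ j ∈ (Finset.Icc 1 H).filter (fun j => d ∣ n + j), g ((n + j) / d)) - v| ≤
      d * ∑ n ∈ Finset.Icc 1 (x / d), |(∑ j ∈ Finset.Icc 1 (H / d), g (n + j)) - v| + 2 * x := by
    calc ∑ n ∈ (Finset.Icc 1 x).filter (fun n => d ≤ n),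
          |(∑ j ∈ (Finset.Icc 1 H).filter (fun j => d ∣ n + j), g ((n + j) / d)) - v|
        ≤ ∑ n ∈ (Finset.Icc 1 x).filter (fun n => d ≤ n),
          (|(∑ j ∈ Finset.Icc 1 (H / d), g (n / d + j)) - v| + 2) :=
          Finset.sum_le_sum fun n _ => inner_le d H n hd g hg v
      _ = ∑ n ∈ (Finset.Icc 1 x).filter (fun n => d ≤ n),
          |(∑ j ∈ Finset.Icc 1 (H / d), g (n / d + j)) - v| +
          ((Finset.Icc 1 x).filter (fun n => d ≤ n)).card * 2 := by
          rw [Finset.sum_add_distrib, Finset.sum_const, nsmul_eq_mul]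
      _ ≤ d * ∑ n ∈ Finset.Icc 1 (x / d), |(∑ j ∈ Finset.Icc 1 (H / d), g (n + j)) - v| +
          (x : ℝ) * 2 := by
          have h2 := fib_le d x hd (fun m => |(∑ j ∈ Finset.Icc 1 (H / d), g (m + j)) - v|)
            (fun m => abs_nonneg _)
          have h3 : ((Finset.Icc 1 x).filter (fun n => d ≤ n)).card ≤ x := by
            have := Finset.card_filter_le (Finset.Icc 1 x) (fun n => d ≤ n)
            simpa using this
          have h4 : (((Finset.Icc 1 x).filter (fun n => d ≤ n)).card : ℝ) ≤ x := by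
            exact_mod_cast h3
          exact add_le_add h2 (by linarith)
      _ = _ := by ring
  have h5 : ∑ n ∈ (Finset.Icc 1 x).filter (fun n => ¬ d ≤ n),
      |(∑ j ∈ (Finset.Icc 1 H).filter (fun j => d ∣ n + j), g ((n + j) / d)) - v| ≤
      4 * d * H := by
    calc ∑ n ∈ (Finset.Icc 1 x).filter (fun n => ¬ d ≤ n),
          |(∑ j ∈ (Finset.Icc 1 H).filter (fun j => d ∣ n + j), g ((n + j) / d)) - v|
        ≤ ∑ n ∈ (Finset.Icc 1 x).filter (fun n => ¬ d ≤ n), (4 * (H : ℝ)) :=
          Finset.sum_le_sum fun n _ => triv_le d H n g hg v hv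
      _ = ((Finset.Icc 1 x).filter (fun n => ¬ d ≤ n)).card * (4 * (H : ℝ)) := by
          rw [Finset.sum_const, nsmul_eq_mul]
      _ ≤ (d : ℝ) * (4 * (H : ℝ)) := by
          have h6 : ((Finset.Icc 1 x).filter (fun n => ¬ d ≤ n)).card ≤ d := by
            calc ((Finset.Icc 1 x).filter (fun n => ¬ d ≤ n)).card
                ≤ (Finset.range d).card := by
                  refine Finset.card_le_card fun n hn => ?_
                  have h7 := (Finset.mem_filter.1 hn).2
                  rw [Finset.mem_range]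
                  omega
              _ = d := Finset.card_range d
          have h8 : (((Finset.Icc 1 x).filter (fun n => ¬ d ≤ n)).card : ℝ) ≤ d := by
            exact_mod_cast h6
          exact mul_le_mul_of_nonneg_right h8 (by positivity)
      _ = 4 * d * H := by ring
  linarith

end MRC
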