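import Pool.Agent.Helper33.MRC.Final
import Pool.Agent.Helper6.MR.Iface2

/-!
# MRC: the blocks (B) and (C) in the form of `Helper6/MR/Iface2.lean`
-/

set_option autoImplicit false

namespace MRC

theorem expx_bridge (h0 : MRP.MRCHI0x) (h1 : MRP.MRCHI1x) (hl : MRP.LAWx) : MRP.EXPx :=
  expx_of_chi h0 h1 (fun ε d hε hd => hl ε hε d hd)

theorem circx_bridge (h0 : MRP.MRCHI0x) (h1 : MRP.MRCHI1x) (hl : MRP.LAWx) : MRP.CIRCx := by
  intro ε hε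
  obtain ⟨P0, hP0⟩ := circx_of h0 h1 (fun ε d hε hd => hl ε hε d hd) ε hε
  refine ⟨P0, fun P hP => ?_⟩
  obtain ⟨x0, hx0⟩ := hP0 P hP
  exact ⟨x0, fun x hx A σ b hA hσ hb => hx0 x hx σ A b hσ hA hb⟩

end MRC
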