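import Pool.Agent.Helper33.MRB.Defs

/-!
# MRC: single scale versions (ordinary averages) of the blocks (B) and (C) of project MR

All statements are about one scale `x` (a natural number), uniformly in the function `b`, which may
depend on `x`. Chain: `MRCHI0x`, `MRCHI1x`, `LAWx` give `MRAPx` (X10-X13), `MRAPx` gives `EXPx`
(X04-X09), `EXPx` gives `CIRCx` (X02, X03).
-/

set_option autoImplicit false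

namespace MRC

open Finset MRP MRB

/-- The mean of `b (Ω n)` over `n ≤ x`. -/
noncomputable def mA (x : ℕ) (b : ℕ → ℝ) : ℝ := (∑ n ∈ Finset.Icc 1 x, b (Om n)) / (x : ℝ)

/-- Input from block D, nonprincipal characters. -/
def MRCHI1x : Prop :=
  ∀ (q : ℕ) (_ : 1 ≤ q) (χ : DirichletCharacter ℂ q), χ ≠ 1 →
    ∀ ε : ℝ, 0 < ε → ∃ H0 : ℕ, ∀ H : ℕ, H0 ≤ H → ∃ x0 : ℕ, ∀ x : ℕ, x0 ≤ x →
    ∀ b : ℕ → ℝ, (∀ m, |b m| ≤ 1) →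
      ∑ n ∈ Finset.Icc 1 x,
        ‖∑ j ∈ Finset.Icc 1 H, ((b (Om (n + j)) : ℝ) : ℂ) * χ ((n + j : ℕ) : ZMod q)‖ ≤
          ε * H * x

/-- Input from block D, principal character. -/
def MRCHI0x : Prop :=
  ∀ (q : ℕ) (_ : 1 ≤ q),
    ∀ ε : ℝ, 0 < ε → ∃ H0 : ℕ, ∀ H : ℕ, H0 ≤ H → ∃ x0 : ℕ, ∀ x : ℕ, x0 ≤ x →
    ∀ b : ℕ → ℝ, (∀ m, |b m| ≤ 1) →
      ∑ n ∈ Finset.Icc 1 x,
        |(∑ j ∈ (Finset.Icc 1 H).filter (fun j => Nat.Coprime (n + j) q), b (Om (n + j))) -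
          (H : ℝ) * ((Nat.totient q : ℝ) / (q : ℝ)) * mA x b| ≤ ε * H * x

/-- Input from block F: the law of `Ω` varies slowly. -/
def LAWx : Prop :=
  ∀ (ε : ℝ) (d : ℕ), 0 < ε → 1 ≤ d → ∃ x0 : ℕ, ∀ x : ℕ, x0 ≤ x → ∀ b : ℕ → ℝ,
    (∀ m, |b m| ≤ 1) → |mA x (up 1 b) - mA x b| ≤ ε ∧ |mA (x / d) b - mA x b| ≤ ε

/-- Short sums along reduced residue classes. -/
def COPx : Prop :=
  ∀ q : ℕ, 1 ≤ q → ∀ ε : ℝ, 0 < ε → ∃ H0 : ℕ, ∀ H : ℕ, H0 ≤ H → ∃ x0 : ℕ, ∀ x : ℕ, x0 ≤ x →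
    ∀ b : ℕ → ℝ, (∀ m, |b m| ≤ 1) → ∀ r : ℕ, Nat.Coprime r q →
      ∑ n ∈ Finset.Icc 1 x,
        |(∑ j ∈ (Finset.Icc 1 H).filter (fun j => (n + j) % q = r % q), b (Om (n + j))) -
          (H : ℝ) / (q : ℝ) * mA x b| ≤ ε * H * x

/-- Short sums along all residue classes. -/
def MRAPx : Prop :=
  ∀ q : ℕ, 1 ≤ q → ∀ ε : ℝ, 0 < ε → ∃ H0 : ℕ, ∀ H : ℕ, H0 ≤ H → ∃ x0 : ℕ, ∀ x : ℕ, x0 ≤ x →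
    ∀ b : ℕ → ℝ, (∀ m, |b m| ≤ 1) → ∀ r : ℕ,
      ∑ n ∈ Finset.Icc 1 x,
        |∑ j ∈ (Finset.Icc 1 H).filter (fun j => (n + j) % q = r % q),
          (b (Om (n + j)) - mA x b)| ≤ ε * H * x

/-- The short exponential sums on the minor arcs. -/
def MINORx : Prop :=
  ∀ ε : ℝ, 0 < ε → ∃ (Q : ℕ) (K : ℝ), 1 ≤ Q ∧ 1 ≤ K ∧ ∃ H0 : ℕ, ∀ H : ℕ, H0 ≤ H →
    ∃ x0 : ℕ, ∀ x : ℕ, x0 ≤ x → ∀ b : ℕ → ℝ, (∀ m, |b m| ≤ 1) → ∀ α : ℝ,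
      (∀ d : ℕ, 1 ≤ d → d ≤ Q → K / H ≤ nd ((d : ℝ) * α)) →
      ∑ n ∈ Finset.Icc 1 x,
        ‖∑ j ∈ Finset.Icc 1 H, ((b (Om (n + j)) : ℝ) : ℂ) * eC ((j : ℝ) * α)‖ ≤ ε * H * x

/-- The short exponential sums on the major arcs. -/
def MAJORx : Prop :=
  ∀ q : ℕ, 1 ≤ q → ∀ K ε : ℝ, 0 < K → 0 < ε → ∃ H0 : ℕ, ∀ H : ℕ, H0 ≤ H →
    ∃ x0 : ℕ, ∀ x : ℕ, x0 ≤ x → ∀ b : ℕ → ℝ, (∀ m, |b m| ≤ 1) → ∀ α : ℝ,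
      nd ((q : ℝ) * α) ≤ K / H →
      ∑ n ∈ Finset.Icc 1 x,
        ‖∑ j ∈ Finset.Icc 1 H, ((b (Om (n + j)) - mA x b : ℝ) : ℂ) * eC ((j : ℝ) * α)‖ ≤
          ε * H * x

/-- Short exponential sums, supremum over the frequency outside the mean. -/
def EXPx : Prop :=
  ∀ ε : ℝ, 0 < ε → ∃ H0 : ℕ, ∀ H : ℕ, H0 ≤ H → ∃ x0 : ℕ, ∀ x : ℕ, x0 ≤ x →
    ∀ b : ℕ → ℝ, (∀ m, |b m| ≤ 1) → ∀ α : ℝ,
      ∑ n ∈ Finset.Icc 1 x,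
        ‖∑ j ∈ Finset.Icc 1 H, ((b (Om (n + j)) - mA x b : ℝ) : ℂ) * eC ((j : ℝ) * α)‖ ≤
          ε * H * x

/-- The circle step at one scale, with free coefficients. -/
def CIRCx : Prop :=
  ∀ ε : ℝ, 0 < ε → ∃ P0 : ℕ, ∀ P : ℕ, P0 ≤ P → ∃ x0 : ℕ, ∀ x : ℕ, x0 ≤ x →
    ∀ σ A b : ℕ → ℝ, (∀ p, |σ p| ≤ 1) → (∀ n, |A n| ≤ 1) → (∀ m, |b m| ≤ 1) →
      |∑ n ∈ Finset.Icc 1 x, ∑ p ∈ dyP P, σ p * (A n * (b (Om (n + p)) - mA x b))| ≤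
        ε * (dyP P).card * x

/-- The exponential sum over the primes in `(P, 2P]` with coefficients. -/
noncomputable def SPs (σ : ℕ → ℝ) (P : ℕ) (α : ℝ) : ℂ :=
  ∑ p ∈ dyP P, (σ p : ℂ) * eC ((p : ℝ) * α)

end MRC
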