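import Pool.Agent.Helper33.MRC.Defs

/-!
# MRC-X01: Turán-Kubilius for a fixed finite set of primes

Proof. Expand the square, `#{n ≤ x : d ∣ n} = x/d + O(1)` (natural division, `0 ≤ x/d - ⌊x/d⌋ < 1`):
`∑_{n≤x} ω² = ∑_{p,p'} ⌊x/lcm(p,p')⌋ ≤ x (∑_{p≠p'} 1/(pp') + ∑ 1/p) = x (W² - ∑ 1/p² + W)`,
`∑_{n≤x} ω ≥ x W - |S|`, so the sum is `≤ x (W² + W) - 2W (xW - |S|) + x W² = xW + 2W|S|
≤ 2(W+1)x` for `x ≥ 2W|S|`.
-/

set_option autoImplicit false

namespace MRC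

open Finset MRP MRB

private lemma card_Icc_dvd (N d : ℕ) : ((Finset.Icc 1 N).filter (fun n => d ∣ n)).card = N / d := by
  have h := Nat.Ioc_filter_dvd_card_eq_div N d
  have h1 : Finset.Icc 1 N = Finset.Ioc 0 N := by
    ext x
    simp [Finset.mem_Icc, Finset.mem_Ioc]
    omega
  rw [h1]
  exact h

private lemma natdiv_le (N d : ℕ) : ((N / d : ℕ) : ℝ) ≤ N * (1 / d) := by
  have := @Nat.cast_div_le ℝ _ _ _ N d
  rw [mul_one_div]
  exact this

private lemma natdiv_ge (N d : ℕ) : (N : ℝ) * (1 / d) - 1 ≤ ((N / d : ℕ) : ℝ) := by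
  rw [mul_one_div]
  rcases Nat.eq_zero_or_pos d with rfl | hd
  · simp
  · have h := Nat.div_add_mod N d
    have h1 := Nat.mod_lt N hd
    have h2 : (N : ℝ) < d * ((N / d : ℕ) : ℝ) + d := by
      have : N < d * (N / d) + d := by omega
      exact_mod_cast this
    have hd' : (0 : ℝ) < d := by exact_mod_cast hd
    rw [sub_le_iff_le_add, div_le_iff₀ hd']
    linarith

private lemma om_cast (Q : Finset ℕ) (n : ℕ) :
    (om Q n : ℝ) = ∑ p ∈ Q, if p ∣ n then (1 : ℝ) else 0 := by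
  unfold om
  rw [Finset.card_filter]
  push_cast
  rfl

private theorem tk_aux (Q : Finset ℕ) (hQ : ∀ p ∈ Q, p.Prime) (N : ℕ) :
    ∑ n ∈ Finset.Icc 1 N, ((om Q n : ℝ) - ∑ p ∈ Q, (1 : ℝ) / p) ^ 2 ≤
      N * (∑ p ∈ Q, (1 : ℝ) / p) + 2 * (∑ p ∈ Q, (1 : ℝ) / p) * Q.card := by
  classical
  set L : ℝ := ∑ p ∈ Q, (1 : ℝ) / p with hL
  have hL0 : 0 ≤ L := Finset.sum_nonneg fun p _ => by positivity
  have h1 : (N : ℝ) * L - Q.card ≤ ∑ n ∈ Finset.Icc 1 N, (om Q n : ℝ) := by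
    have e1 : ∑ n ∈ Finset.Icc 1 N, (om Q n : ℝ) = ∑ p ∈ Q, ((N / p : ℕ) : ℝ) := by
      rw [Finset.sum_congr rfl fun n _ => om_cast Q n, Finset.sum_comm]
      refine Finset.sum_congr rfl fun p _ => ?_
      rw [← Finset.sum_filter, Finset.sum_const, card_Icc_dvd, nsmul_eq_mul, mul_one]
    rw [e1]
    have h2 : ∑ p ∈ Q, ((N : ℝ) * (1 / p) - 1) ≤ ∑ p ∈ Q, ((N / p : ℕ) : ℝ) :=
      Finset.sum_le_sum fun p _ => natdiv_ge N p
    rw [Finset.sum_sub_distrib, ← Finset.mul_sum, Finset.sum_const, nsmul_eq_mul, mul_one] at h2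
    exact h2
  have h2 : ∑ n ∈ Finset.Icc 1 N, (om Q n : ℝ) ^ 2 ≤ N * L ^ 2 + N * L := by
    have e1 : ∑ n ∈ Finset.Icc 1 N, (om Q n : ℝ) ^ 2 = ∑ p ∈ Q, ∑ q ∈ Q,
        (((Finset.Icc 1 N).filter (fun n => p ∣ n ∧ q ∣ n)).card : ℝ) := by
      have e2 : ∀ n, (om Q n : ℝ) ^ 2 = ∑ p ∈ Q, ∑ q ∈ Q,
          if (p ∣ n ∧ q ∣ n) then (1 : ℝ) else 0 := by
        intro n
        rw [om_cast, sq, Finset.sum_mul_sum]
        refine Finset.sum_congr rfl fun p _ => Finset.sum_congr rfl fun q _ => ?_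
        by_cases hp : p ∣ n <;> by_cases hq : q ∣ n <;> simp [hp, hq]
      rw [Finset.sum_congr rfl fun n _ => e2 n, Finset.sum_comm]
      refine Finset.sum_congr rfl fun p _ => ?_
      rw [Finset.sum_comm]
      refine Finset.sum_congr rfl fun q _ => ?_
      rw [← Finset.sum_filter, Finset.sum_const, nsmul_eq_mul, mul_one]
    rw [e1]
    have h3 : ∀ p ∈ Q, ∑ q ∈ Q, (((Finset.Icc 1 N).filter (fun n => p ∣ n ∧ q ∣ n)).card : ℝ) ≤
        N * ((1 / p) * L) + N * (1 / p) := by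
      intro p hp
      have h4 : ∀ q ∈ Q, (((Finset.Icc 1 N).filter (fun n => p ∣ n ∧ q ∣ n)).card : ℝ) ≤
          N * ((1 / p) * (1 / q)) + if p = q then (N : ℝ) * (1 / p) else 0 := by
        intro q hq
        by_cases hpq : p = q
        · rw [if_pos hpq, ← hpq]
          have h5 : (Finset.Icc 1 N).filter (fun n => p ∣ n ∧ p ∣ n) =
              (Finset.Icc 1 N).filter (fun n => p ∣ n) := by
            refine Finset.filter_congr fun n _ => and_self_iff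
          rw [h5, card_Icc_dvd]
          have := natdiv_le N p
          have h6 : 0 ≤ (N : ℝ) * ((1 / p) * (1 / p)) := by positivity
          linarith
        · rw [if_neg hpq, add_zero]
          have h5 : (Finset.Icc 1 N).filter (fun n => p ∣ n ∧ q ∣ n) =
              (Finset.Icc 1 N).filter (fun n => p * q ∣ n) := by
            refine Finset.filter_congr fun n _ => ?_
            have hc : Nat.Coprime p q := (Nat.coprime_primes (hQ p hp) (hQ q hq)).mpr hpq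
            exact ⟨fun h => hc.mul_dvd_of_dvd_of_dvd h.1 h.2,
              fun h => ⟨(dvd_mul_right p q).trans h, (dvd_mul_left q p).trans h⟩⟩
          rw [h5, card_Icc_dvd]
          have := natdiv_le N (p * q)
          push_cast at this
          rw [one_div_mul_one_div]
          exact this
      refine (Finset.sum_le_sum h4).trans (le_of_eq ?_)
      rw [Finset.sum_add_distrib, Finset.sum_ite_eq, if_pos hp, ← Finset.mul_sum, ← Finset.mul_sum]
    refine (Finset.sum_le_sum h3).trans (le_of_eq ?_)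
    rw [Finset.sum_add_distrib, ← Finset.mul_sum, ← Finset.mul_sum, ← Finset.sum_mul]
    ring
  have e3 : ∑ n ∈ Finset.Icc 1 N, ((om Q n : ℝ) - L) ^ 2 =
      ∑ n ∈ Finset.Icc 1 N, (om Q n : ℝ) ^ 2 - 2 * L * (∑ n ∈ Finset.Icc 1 N, (om Q n : ℝ)) +
        N * L ^ 2 := by
    have : ∀ n ∈ Finset.Icc 1 N, ((om Q n : ℝ) - L) ^ 2 =
        (om Q n : ℝ) ^ 2 - 2 * L * (om Q n) + L ^ 2 := fun n _ => by ring
    rw [Finset.sum_congr rfl this, Finset.sum_add_distrib, Finset.sum_sub_distrib,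
      ← Finset.mul_sum, Finset.sum_const, Nat.card_Icc, Nat.add_sub_cancel, nsmul_eq_mul]
  rw [e3]
  have h6 := mul_le_mul_of_nonneg_left h1 (by positivity : (0 : ℝ) ≤ 2 * L)
  nlinarith [h2, h6]

theorem tk_ord (S : Finset ℕ) (hS : ∀ p ∈ S, p.Prime) : ∃ x0 : ℕ, ∀ x : ℕ, x0 ≤ x →
    ∑ n ∈ Finset.Icc 1 x, ((om S n : ℝ) - Wp S) ^ 2 ≤ 2 * (Wp S + 1) * x := by
  have hW0 : 0 ≤ Wp S := by
    unfold Wp
    exact Finset.sum_nonneg fun p _ => by positivity
  refine ⟨⌈2 * Wp S * S.card⌉₊, fun x hx => ?_⟩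
  have h1 := tk_aux S hS x
  have h2 : 2 * Wp S * S.card ≤ x := (Nat.le_ceil _).trans (by exact_mod_cast hx)
  have h3 : (0 : ℝ) ≤ x := Nat.cast_nonneg x
  have e : (∑ p ∈ S, (1 : ℝ) / p) = Wp S := rfl
  rw [e] at h1
  nlinarith [mul_nonneg hW0 h3]

end MRC
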