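import Pool.Agent.Helper33.MRC.Defs
import Pool.Agent.Helper33.MRB.B07

/-!
# MRC-X04: duality and exchange of the short sum

Proof. Let `z_n = ∑_{j≤H} f(n+j) e(jα)`, choose `u_n` with `‖u_n‖ ≤ 1`, `u_n z_n = ‖z_n‖`, and
`c n = u_n e(-nα)` for `1 ≤ n ≤ x`, `c n = 0` otherwise. Then
`∑_{n≤x} ‖z_n‖ = ∑_{n≤x} ∑_{j≤H} c_n f(n+j) e((n+j)α)`. Collecting the terms with `N = n + j ∈ [1, x+H]`
gives `∑_N f(N) e(Nα) ∑_{j≤H} c(N-j)`: if `N ≤ j` then `N - j = 0` (natural subtraction) and `c 0 = 0`; if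
`N - j > x` then `c (N-j) = 0`.
-/

set_option autoImplicit false

namespace MRC

open Finset MRP MRB

private theorem eC_add' (x y : ℝ) : eC (x + y) = eC x * eC y := by
  unfold eC
  rw [← Complex.exp_add]
  congr 1
  push_cast
  ring

private theorem norm_eC' (x : ℝ) : ‖eC x‖ = 1 := by
  unfold eC
  rw [Complex.norm_exp]
  have h : (2 * (Real.pi : ℂ) * Complex.I * (x : ℂ)).re = 0 := by
    simp [Complex.mul_re, Complex.mul_im]
  rw [h, Real.exp_zero]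

private theorem exists_phase (z : ℂ) : ∃ u : ℂ, ‖u‖ ≤ 1 ∧ u * z = ((‖z‖ : ℝ) : ℂ) := by
  by_cases hz : z = 0
  · refine ⟨0, by simp, by simp [hz]⟩
  · have hn : ‖z‖ ≠ 0 := norm_ne_zero_iff.mpr hz
    refine ⟨(starRingEnd ℂ) z / ((‖z‖ : ℝ) : ℂ), ?_, ?_⟩
    · rw [norm_div, RCLike.norm_conj, Complex.norm_real, norm_norm, div_self hn]
    · rw [div_mul_eq_mul_div, Complex.conj_mul', div_eq_iff (by exact_mod_cast hn)]
      ring

theorem dualise_x (H x : ℕ) (f : ℕ → ℂ) (α : ℝ) :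
    ∃ c : ℕ → ℂ, (∀ n, ‖c n‖ ≤ 1) ∧ c 0 = 0 ∧ (∀ n, x < n → c n = 0) ∧
      ∑ n ∈ Finset.Icc 1 x, ‖∑ j ∈ Finset.Icc 1 H, f (n + j) * eC ((j : ℝ) * α)‖ ≤
        ‖∑ N ∈ Finset.Icc 1 (x + H), f N * eC ((N : ℝ) * α) * ∑ j ∈ Finset.Icc 1 H, c (N - j)‖ := by
  have hu : ∀ n : ℕ, ∃ u : ℂ, ‖u‖ ≤ 1 ∧
      u * (∑ j ∈ Finset.Icc 1 H, f (n + j) * eC ((j : ℝ) * α)) =
        ((‖∑ j ∈ Finset.Icc 1 H, f (n + j) * eC ((j : ℝ) * α)‖ : ℝ) : ℂ) :=
    fun n => exists_phase _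
  choose u hu1 hu2 using hu
  set c : ℕ → ℂ := fun n => if 1 ≤ n ∧ n ≤ x then u n * eC (-((n : ℝ) * α)) else 0 with hc
  have hc1 : ∀ n, ‖c n‖ ≤ 1 := by
    intro n
    simp only [hc]
    split_ifs
    · rw [norm_mul, norm_eC', mul_one]
      exact hu1 n
    · simp
  have hc0 : c 0 = 0 := by simp [hc]
  have hcX : ∀ n, x < n → c n = 0 := by
    intro n hn
    simp only [hc]
    rw [if_neg]
    omega
  refine ⟨c, hc1, hc0, hcX, ?_⟩
  set S1 : ℂ := ∑ n ∈ Finset.Icc 1 x, ∑ j ∈ Finset.Icc 1 H,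
    (c n * f (n + j) * eC (((n + j : ℕ) : ℝ) * α)) with hS1
  have hA : ((∑ n ∈ Finset.Icc 1 x,
      ‖∑ j ∈ Finset.Icc 1 H, f (n + j) * eC ((j : ℝ) * α)‖ : ℝ) : ℂ) = S1 := by
    rw [hS1, Complex.ofReal_sum]
    apply Finset.sum_congr rfl
    intro n hn
    rw [Finset.mem_Icc] at hn
    rw [← hu2 n, Finset.mul_sum]
    apply Finset.sum_congr rfl
    intro j _
    have hcn : c n = u n * eC (-((n : ℝ) * α)) := by
      simp only [hc]
      rw [if_pos hn]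
    have he : eC (-((n : ℝ) * α)) * eC (((n + j : ℕ) : ℝ) * α) = eC ((j : ℝ) * α) := by
      rw [← eC_add']
      congr 1
      push_cast
      ring
    rw [hcn]
    calc u n * (f (n + j) * eC ((j : ℝ) * α)) =
        u n * (f (n + j) *
          (eC (-((n : ℝ) * α)) * eC (((n + j : ℕ) : ℝ) * α))) := by rw [he]
      _ = _ := by ring
  have hC : S1 = ∑ N ∈ Finset.Icc 1 (x + H),
          (f N * eC ((N : ℝ) * α) * ∑ j ∈ Finset.Icc 1 H, c (N - j)) := by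
    have hR : ∑ N ∈ Finset.Icc 1 (x + H),
          (f N * eC ((N : ℝ) * α) * ∑ j ∈ Finset.Icc 1 H, c (N - j)) =
        ∑ j ∈ Finset.Icc 1 H, ∑ N ∈ Finset.Icc 1 (x + H),
          (c (N - j) * f N * eC ((N : ℝ) * α)) := by
      rw [Finset.sum_comm]
      apply Finset.sum_congr rfl
      intro N _
      rw [Finset.mul_sum]
      apply Finset.sum_congr rfl
      intro j _
      ring
    rw [hR, hS1, Finset.sum_comm]
    apply Finset.sum_congr rfl
    intro j hj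
    rw [Finset.mem_Icc] at hj
    have h1 : ∑ n ∈ Finset.Icc 1 x,
        (c n * f (n + j) * eC (((n + j : ℕ) : ℝ) * α)) =
        ∑ N ∈ Finset.Icc (1 + j) (x + j),
          (c (N - j) * f N * eC ((N : ℝ) * α)) := by
      rw [← Finset.map_add_right_Icc, Finset.sum_map]
      apply Finset.sum_congr rfl
      intro n _
      simp only [addRightEmbedding_apply, Nat.add_sub_cancel]
    rw [h1]
    apply Finset.sum_subset
    · intro N hN
      rw [Finset.mem_Icc] at hN ⊢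
      omega
    · intro N hN hN'
      rw [Finset.mem_Icc] at hN hN'
      have h2 : c (N - j) = 0 := by
        by_cases h3 : N ≤ j
        · rw [Nat.sub_eq_zero_of_le h3]
          exact hc0
        · apply hcX
          omega
      rw [h2]
      ring
  have hL0 : 0 ≤ ∑ n ∈ Finset.Icc 1 x,
      ‖∑ j ∈ Finset.Icc 1 H, f (n + j) * eC ((j : ℝ) * α)‖ :=
    Finset.sum_nonneg fun n _ => norm_nonneg _
  have hD : ∑ n ∈ Finset.Icc 1 x,
      ‖∑ j ∈ Finset.Icc 1 H, f (n + j) * eC ((j : ℝ) * α)‖ = ‖S1‖ := by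
    rw [← hA, Complex.norm_real, Real.norm_of_nonneg hL0]
  rw [hD, hC]

end MRC
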