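import Pool.Agent.Helper33.MRC.Defs

/-!
# MRC-X05: one pair of primes in the Kátai argument

Proof. Write `∑_{j=1}^{H} c(pm-j) = ∑_{n : 1≤n≤x, n < pm ≤ n+H} c_n` (terms with `pm ≤ j` vanish by
`c 0 = 0`). So the left side is at most `∑_{n≤x} ∑_{n'≤x} ‖∑_{m ∈ I(n,n')} e(mθ)‖` with
`I(n,n') = {1 ≤ m ≤ M : n < pm ≤ n+H, n' < p'm ≤ n'+H}`, an interval of integers `[A, A']` with
`A' ≤ A + H/R` (natural division; `p (A' - A) ≤ H - 1`). By `hB` each nonempty inner sum is at most `B`.
For given `n` the number of `n'` with `I(n,n') ≠ ∅` is at most `4H`: all such `m` lie in an interval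
`[m₁, m₂]` with `p (m₂ - m₁) ≤ H - 1`, so `p'(m₂ - m₁) ≤ 2(H-1)`, and `p'm₁ - H ≤ n' < p'm₂`: at most
`3H` values. Summing over `n ≤ x`: `4 H B x`.
-/

set_option autoImplicit false

namespace MRC

open Finset MRP MRB

private lemma conv_x (H x K : ℕ) (c : ℕ → ℂ) (hc0 : c 0 = 0) (hcX : ∀ n, x < n → c n = 0) :
    ∑ j ∈ Finset.Icc 1 H, c (K - j) =
      ∑ n ∈ Finset.Icc 1 x, if (n < K ∧ K ≤ n + H) then c n else 0 := by
  rw [← Finset.sum_filter]
  have h1 : ∑ j ∈ Finset.Icc 1 H, c (K - j) =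
      ∑ j ∈ (Finset.Icc 1 H).filter (fun j => j < K ∧ K - j ≤ x), c (K - j) := by
    symm
    apply Finset.sum_filter_of_ne
    intro j _ hj
    by_contra hcon
    rcases not_and_or.mp hcon with h | h
    · have : K - j = 0 := by omega
      rw [this] at hj
      exact hj hc0
    · exact hj (hcX _ (by omega))
  rw [h1]
  apply Finset.sum_nbij' (fun j => K - j) (fun n => K - n)
  · intro j hj
    simp only [Finset.mem_filter, Finset.mem_Icc] at hj ⊢
    omega
  · intro n hn
    simp only [Finset.mem_filter, Finset.mem_Icc] at hn ⊢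
    omega
  · intro j hj
    simp only [Finset.mem_filter, Finset.mem_Icc] at hj
    omega
  · intro n hn
    simp only [Finset.mem_filter, Finset.mem_Icc] at hn
    omega
  · intro j hj
    rfl

/-- The set of `m` for a pair `n, n'`. -/
private def II (H M p p' n n' : ℕ) : Finset ℕ :=
  (Finset.Icc 1 M).filter (fun m => (n < p * m ∧ p * m ≤ n + H) ∧ (n' < p' * m ∧ p' * m ≤ n' + H))

private lemma inner_x (R H M p p' n n' : ℕ) (hR : 1 ≤ R) (hp : R < p) (θ B : ℝ)
    (hB : ∀ A A' : ℕ, A' ≤ A + H / R → ‖∑ m ∈ Finset.Icc A A', eC ((m : ℝ) * θ)‖ ≤ B) :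
    ‖∑ m ∈ II H M p p' n n', eC ((m : ℝ) * θ)‖ ≤ if (II H M p p' n n').Nonempty then B else 0 := by
  split_ifs with hne
  · have hmin := Finset.min'_mem _ hne
    have hmax := Finset.max'_mem _ hne
    have hI : II H M p p' n n' =
        Finset.Icc ((II H M p p' n n').min' hne) ((II H M p p' n n').max' hne) := by
      apply Finset.Subset.antisymm
      · intro m hm
        exact Finset.mem_Icc.mpr ⟨Finset.min'_le _ _ hm, Finset.le_max' _ _ hm⟩
      · intro m hm
        have hm' := Finset.mem_Icc.mp hm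
        have h1 := Nat.mul_le_mul_left p hm'.1
        have h2 := Nat.mul_le_mul_left p hm'.2
        have h3 := Nat.mul_le_mul_left p' hm'.1
        have h4 := Nat.mul_le_mul_left p' hm'.2
        unfold II at hmin hmax ⊢
        simp only [Finset.mem_filter, Finset.mem_Icc] at hmin hmax ⊢
        unfold II at hm' h1 h2 h3 h4
        omega
    rw [hI]
    apply hB
    set A := (II H M p p' n n').min' hne with hA
    set A' := (II H M p p' n n').max' hne with hA'
    unfold II at hmin hmax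
    simp only [Finset.mem_filter, Finset.mem_Icc] at hmin hmax
    have hAA : A ≤ A' := Finset.min'_le_max' _ hne
    have h5 : p * (A' - A) ≤ H := by
      rw [Nat.mul_sub]
      omega
    have h6 : R * (A' - A) ≤ H := le_trans (Nat.mul_le_mul_right _ hp.le) h5
    have h7 : A' - A ≤ H / R := by
      rw [Nat.le_div_iff_mul_le (by omega)]
      rw [mul_comm]
      exact h6
    omega
  · rw [Finset.not_nonempty_iff_eq_empty] at hne
    rw [hne]
    simp

private lemma count_x (R H M x p p' n : ℕ) (hR : 1 ≤ R) (hp : R < p) (hp' : p' ≤ 2 * R) :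
    ((Finset.Icc 1 x).filter (fun n' => (II H M p p' n n').Nonempty)).card ≤ 4 * H := by
  by_cases hJ : ((Finset.Icc 1 M).filter (fun m => n < p * m ∧ p * m ≤ n + H)).Nonempty
  · have hmin := Finset.min'_mem _ hJ
    have hmax := Finset.max'_mem _ hJ
    set J := (Finset.Icc 1 M).filter (fun m => n < p * m ∧ p * m ≤ n + H) with hJd
    set A := J.min' hJ with hA
    set A' := J.max' hJ with hA'
    have hAA : A ≤ A' := Finset.min'_le_max' _ hJ
    have hmin' := hmin
    have hmax' := hmax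
    simp only [Finset.mem_filter, Finset.mem_Icc] at hmin' hmax'
    have h5 : p * (A' - A) ≤ H := by
      rw [Nat.mul_sub]
      omega
    have h6 : p' * (A' - A) ≤ 2 * H := by
      calc p' * (A' - A) ≤ (2 * p) * (A' - A) := Nat.mul_le_mul_right _ (by omega)
        _ = 2 * (p * (A' - A)) := by ring
        _ ≤ 2 * H := by omega
    have h7 : p' * A' = p' * A + p' * (A' - A) := by
      rw [← Nat.mul_add]
      congr 1
      omega
    have hsub : (Finset.Icc 1 x).filter (fun n' => (II H M p p' n n').Nonempty) ⊆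
        Finset.Ico (p' * A - H) (p' * A') := by
      intro n' hn'
      simp only [Finset.mem_filter, Finset.mem_Icc] at hn'
      obtain ⟨m, hm⟩ := hn'.2
      unfold II at hm
      simp only [Finset.mem_filter, Finset.mem_Icc] at hm
      have hmJ : m ∈ J := by
        rw [hJd]
        simp only [Finset.mem_filter, Finset.mem_Icc]
        exact ⟨hm.1, hm.2.1⟩
      have h1 := Nat.mul_le_mul_left p' (Finset.min'_le _ _ hmJ)
      have h2 := Nat.mul_le_mul_left p' (Finset.le_max' _ _ hmJ)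
      rw [← hA] at h1
      rw [← hA'] at h2
      simp only [Finset.mem_Ico]
      omega
    calc ((Finset.Icc 1 x).filter (fun n' => (II H M p p' n n').Nonempty)).card
        ≤ (Finset.Ico (p' * A - H) (p' * A')).card := Finset.card_le_card hsub
      _ = p' * A' - (p' * A - H) := Nat.card_Ico _ _
      _ ≤ 4 * H := by omega
  · have : (Finset.Icc 1 x).filter (fun n' => (II H M p p' n n').Nonempty) = ∅ := by
      apply Finset.filter_eq_empty_iff.mpr
      intro n' _ hne
      obtain ⟨m, hm⟩ := hne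
      apply hJ
      unfold II at hm
      simp only [Finset.mem_filter, Finset.mem_Icc] at hm
      exact ⟨m, by simp only [Finset.mem_filter, Finset.mem_Icc]; exact ⟨hm.1, hm.2.1⟩⟩
    rw [this]
    simp

theorem pair_bound_x (R H x M p p' : ℕ) (hR : 1 ≤ R) (hRH : R ≤ H) (hp : R < p ∧ p ≤ 2 * R)
    (hp' : R < p' ∧ p' ≤ 2 * R) (c : ℕ → ℂ) (hc : ∀ n, ‖c n‖ ≤ 1) (hc0 : c 0 = 0)
    (hcX : ∀ n, x < n → c n = 0) (θ B : ℝ) (hB0 : 0 ≤ B)
    (hB : ∀ A A' : ℕ, A' ≤ A + H / R → ‖∑ m ∈ Finset.Icc A A', eC ((m : ℝ) * θ)‖ ≤ B) :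
    ‖∑ m ∈ Finset.Icc 1 M, (eC ((m : ℝ) * θ) *
      ((∑ j ∈ Finset.Icc 1 H, c (p * m - j)) *
        starRingEnd ℂ (∑ j ∈ Finset.Icc 1 H, c (p' * m - j))))‖ ≤ 4 * H * B * x := by
  have key : ∑ m ∈ Finset.Icc 1 M, (eC ((m : ℝ) * θ) *
      ((∑ j ∈ Finset.Icc 1 H, c (p * m - j)) *
        starRingEnd ℂ (∑ j ∈ Finset.Icc 1 H, c (p' * m - j)))) =
      ∑ n ∈ Finset.Icc 1 x, ∑ n' ∈ Finset.Icc 1 x, (c n * starRingEnd ℂ (c n')) *
        ∑ m ∈ II H M p p' n n', eC ((m : ℝ) * θ) := by
    have e1 : ∀ m ∈ Finset.Icc 1 M, (eC ((m : ℝ) * θ) *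
        ((∑ j ∈ Finset.Icc 1 H, c (p * m - j)) *
          starRingEnd ℂ (∑ j ∈ Finset.Icc 1 H, c (p' * m - j)))) =
        ∑ n ∈ Finset.Icc 1 x, ∑ n' ∈ Finset.Icc 1 x, (c n * starRingEnd ℂ (c n')) *
          (if ((n < p * m ∧ p * m ≤ n + H) ∧ (n' < p' * m ∧ p' * m ≤ n' + H)) then
            eC ((m : ℝ) * θ) else 0) := by
      intro m _
      rw [conv_x H x (p * m) c hc0 hcX, conv_x H x (p' * m) c hc0 hcX, map_sum,
        Finset.sum_mul_sum, Finset.mul_sum]
      apply Finset.sum_congr rfl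
      intro n _
      rw [Finset.mul_sum]
      apply Finset.sum_congr rfl
      intro n' _
      by_cases h1 : (n < p * m ∧ p * m ≤ n + H)
      · by_cases h2 : (n' < p' * m ∧ p' * m ≤ n' + H)
        · rw [if_pos h1, if_pos h2, if_pos ⟨h1, h2⟩]
          ring
        · rw [if_pos h1, if_neg h2, if_neg (fun h : ((n < p * m ∧ p * m ≤ n + H) ∧
            (n' < p' * m ∧ p' * m ≤ n' + H)) => h2 h.2)]
          simp
      · rw [if_neg h1, if_neg (fun h : ((n < p * m ∧ p * m ≤ n + H) ∧
          (n' < p' * m ∧ p' * m ≤ n' + H)) => h1 h.1)]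
        simp
    rw [Finset.sum_congr rfl e1, Finset.sum_comm]
    apply Finset.sum_congr rfl
    intro n _
    rw [Finset.sum_comm]
    apply Finset.sum_congr rfl
    intro n' _
    rw [← Finset.mul_sum]
    congr 1
    unfold II
    rw [Finset.sum_filter]
  rw [key]
  have hcn : ∀ n n' : ℕ, ‖c n * starRingEnd ℂ (c n')‖ ≤ 1 := by
    intro n n'
    rw [norm_mul, RCLike.norm_conj]
    exact mul_le_one₀ (hc n) (norm_nonneg _) (hc n')
  calc ‖∑ n ∈ Finset.Icc 1 x, ∑ n' ∈ Finset.Icc 1 x, (c n * starRingEnd ℂ (c n')) *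
        ∑ m ∈ II H M p p' n n', eC ((m : ℝ) * θ)‖
      ≤ ∑ n ∈ Finset.Icc 1 x, ‖∑ n' ∈ Finset.Icc 1 x, (c n * starRingEnd ℂ (c n')) *
        ∑ m ∈ II H M p p' n n', eC ((m : ℝ) * θ)‖ := norm_sum_le _ _
    _ ≤ ∑ n ∈ Finset.Icc 1 x, (4 * H * B : ℝ) := by
        apply Finset.sum_le_sum
        intro n _
        calc ‖∑ n' ∈ Finset.Icc 1 x, (c n * starRingEnd ℂ (c n')) *
              ∑ m ∈ II H M p p' n n', eC ((m : ℝ) * θ)‖
            ≤ ∑ n' ∈ Finset.Icc 1 x, ‖(c n * starRingEnd ℂ (c n')) *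
              ∑ m ∈ II H M p p' n n', eC ((m : ℝ) * θ)‖ := norm_sum_le _ _
          _ ≤ ∑ n' ∈ Finset.Icc 1 x, (if (II H M p p' n n').Nonempty then B else 0) := by
              apply Finset.sum_le_sum
              intro n' _
              rw [norm_mul]
              calc ‖c n * starRingEnd ℂ (c n')‖ * ‖∑ m ∈ II H M p p' n n', eC ((m : ℝ) * θ)‖
                  ≤ 1 * ‖∑ m ∈ II H M p p' n n', eC ((m : ℝ) * θ)‖ :=
                    mul_le_mul_of_nonneg_right (hcn n n') (norm_nonneg _)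
                _ = ‖∑ m ∈ II H M p p' n n', eC ((m : ℝ) * θ)‖ := one_mul _
                _ ≤ _ := inner_x R H M p p' n n' hR hp.1 θ B hB
          _ = (((Finset.Icc 1 x).filter (fun n' => (II H M p p' n n').Nonempty)).card : ℝ) * B := by
              rw [← Finset.sum_filter, Finset.sum_const, nsmul_eq_mul]
          _ ≤ ((4 * H : ℕ) : ℝ) * B := by
              apply mul_le_mul_of_nonneg_right _ hB0
              exact_mod_cast count_x R H M x p p' n hR hp.1 hp'.2
          _ = 4 * H * B := by push_cast; ring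
    _ = 4 * H * B * x := by
        rw [Finset.sum_const, Nat.card_Icc, nsmul_eq_mul]
        have : x + 1 - 1 = x := by omega
        rw [this]
        ring

end MRC
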