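import Pool.Agent.Helper33.MRB.C02
import Pool.Agent.Helper33.MRB.B07
import Pool.Agent.Helper33.MRC.X05

/-!
# MRC-X06: one dyadic block in the Kátai argument

Proof. Let `π = card (dyP R)`, `D(N) = ∑_{j≤H} c(N-j)`, `M = ⌊2x/R⌋`. For `p ∈ dyP R`,
`m ≤ (x+H)/p` implies `m ≤ 2x/R`, and `D(pm) = 0` for `pm > x + H`; so the sum over `m ≤ (x+H)/p` may be
replaced by `m ≤ M`. The left side is `‖∑_{m≤M} u_m V_m‖`, `V_m = ∑_{p ∈ dyP R} e(pmα) D(pm)`.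
Cauchy-Schwarz: `≤ (2x/R)^(1/2) (∑_{m≤M} ‖V_m‖²)^(1/2)`, and
`∑_m ‖V_m‖² = ∑_{p,p'} ∑_m e(m(p-p')α) D(pm) conj(D(p'm))`. By `pair_bound_x`:
* `p = p'`: `θ = 0`, `B = 2H/R` (at most `H/R + 1 ≤ 2H/R` terms): `≤ 8 H² x/R`;
* `p ≠ p'`: `θ = (p-p')α`, `1 ≤ |p-p'| ≤ R`, `nd((p-p')α) = nd(|p-p'|α) ≥ η`, so `B = 1/(2η)`
  (`MRB.geom_le`): `≤ 2 H x/η`.
Total `∑_m ‖V_m‖² ≤ 8πH²x/R + 2π²Hx/η`, so the left side is at most
`x H (π/R) (16/π + 4R/(Hη))^(1/2)`.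
-/

set_option autoImplicit false

namespace MRC

open Finset MRP MRB

private theorem x06_nd_neg (x : ℝ) : nd (-x) = nd x := by
  have key : ∀ y : ℝ, nd (-y) ≤ nd y := by
    intro y
    unfold nd
    have h := round_le (-y) (-(round y))
    have h2 : |-y - ((-(round y) : ℤ) : ℝ)| = |y - round y| := by
      push_cast
      rw [← abs_neg]
      congr 1
      ring
    rw [h2] at h
    exact h
  refine le_antisymm (key x) ?_
  have := key (-x)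
  rwa [neg_neg] at this

private theorem x06_nd (R : ℕ) (α η : ℝ)
    (h : ∀ d : ℕ, 1 ≤ d → d ≤ R → η ≤ nd ((d : ℝ) * α)) (p p' : ℕ)
    (hp : R < p ∧ p ≤ 2 * R) (hp' : R < p' ∧ p' ≤ 2 * R) (hne : p ≠ p') :
    η ≤ nd (((p : ℝ) - (p' : ℝ)) * α) := by
  rcases lt_or_gt_of_ne hne with h1 | h1
  · have h2 := h (p' - p) (by omega) (by omega)
    rw [Nat.cast_sub h1.le] at h2
    rw [← x06_nd_neg]
    have h3 : -(((p : ℝ) - (p' : ℝ)) * α) = ((p' : ℝ) - (p : ℝ)) * α := by ring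
    rwa [h3]
  · have h2 := h (p - p') (by omega) (by omega)
    rwa [Nat.cast_sub h1.le] at h2

private theorem x06_sq {ι : Type*} (S : Finset ι) (T : Finset ℕ) (g : ι → ℕ → ℂ)
    (W : ι → ι → ℝ)
    (hW : ∀ i ∈ S, ∀ j ∈ S, ‖∑ m ∈ T, g i m * starRingEnd ℂ (g j m)‖ ≤ W i j) :
    ∑ m ∈ T, ‖∑ i ∈ S, g i m‖ ^ 2 ≤ ∑ i ∈ S, ∑ j ∈ S, W i j := by
  have h1 : ((∑ m ∈ T, ‖∑ i ∈ S, g i m‖ ^ 2 : ℝ) : ℂ) =
      ∑ i ∈ S, ∑ j ∈ S, ∑ m ∈ T, g i m * starRingEnd ℂ (g j m) := by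
    push_cast
    have h : ∀ m ∈ T, ((‖∑ i ∈ S, g i m‖ : ℝ) : ℂ) ^ 2 =
        ∑ i ∈ S, ∑ j ∈ S, g i m * starRingEnd ℂ (g j m) := by
      intro m _
      rw [← Complex.mul_conj', map_sum, Finset.sum_mul_sum]
    rw [Finset.sum_congr rfl h, Finset.sum_comm]
    refine Finset.sum_congr rfl (fun i _ => ?_)
    rw [Finset.sum_comm]
  have h2 : ∑ m ∈ T, ‖∑ i ∈ S, g i m‖ ^ 2 =
      ‖((∑ m ∈ T, ‖∑ i ∈ S, g i m‖ ^ 2 : ℝ) : ℂ)‖ := by
    rw [Complex.norm_real, Real.norm_of_nonneg]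
    positivity
  rw [h2, h1]
  refine (norm_sum_le _ _).trans (Finset.sum_le_sum fun i hi => ?_)
  exact (norm_sum_le _ _).trans (Finset.sum_le_sum fun j hj => hW i hi j hj)

private theorem x06_diag (R H : ℕ) (hR : 1 ≤ R) (hRH : R ≤ H) (A A' : ℕ)
    (hA : A' ≤ A + H / R) :
    ‖∑ m ∈ Finset.Icc A A', eC ((m : ℝ) * 0)‖ ≤ 2 * (H : ℝ) / R := by
  have h0 : ∀ m ∈ Finset.Icc A A', eC ((m : ℝ) * 0) = 1 := by
    intro m _
    rw [mul_zero]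
    unfold eC
    simp
  rw [Finset.sum_congr rfl h0, Finset.sum_const, Nat.card_Icc, nsmul_eq_mul, mul_one,
    Complex.norm_natCast]
  have hRr : (0 : ℝ) < R := by exact_mod_cast hR
  have h1 : A' + 1 - A ≤ H / R + 1 := by
    obtain ⟨K, hK⟩ : ∃ K : ℕ, K = H / R := ⟨_, rfl⟩
    rw [← hK] at hA ⊢
    omega
  have h2 : ((A' + 1 - A : ℕ) : ℝ) ≤ ((H / R : ℕ) : ℝ) + 1 := by exact_mod_cast h1
  have h3 : ((H / R : ℕ) : ℝ) ≤ (H : ℝ) / R := Nat.cast_div_le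
  have h4 : (1 : ℝ) ≤ (H : ℝ) / R := by
    rw [le_div_iff₀ hRr, one_mul]
    exact_mod_cast hRH
  have h5 : 2 * (H : ℝ) / R = (H : ℝ) / R + (H : ℝ) / R := by ring
  rw [h5]
  linarith

private theorem x06_off (η : ℝ) (hη : 0 < η) (θ : ℝ) (hθ : η ≤ nd θ) (A A' : ℕ) :
    ‖∑ m ∈ Finset.Icc A A', eC ((m : ℝ) * θ)‖ ≤ 1 / (2 * η) := by
  have h1 := geom_le A A' θ
  rw [le_div_iff₀ (by positivity)]
  refine le_trans ?_ h1
  exact mul_le_mul_of_nonneg_left (by linarith) (norm_nonneg _)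

private theorem x06_mem (R p : ℕ) (h : p ∈ dyP R) : R < p ∧ p ≤ 2 * R := by
  unfold dyP at h
  simp only [Finset.mem_filter, Finset.mem_Ioc] at h
  omega

private theorem x06_vanish (H x : ℕ) (c : ℕ → ℂ) (hc : ∀ n, x < n → c n = 0) (N : ℕ)
    (hN : x + H < N) : ∑ j ∈ Finset.Icc 1 H, c (N - j) = 0 := by
  refine Finset.sum_eq_zero ?_
  intro j hj
  rw [Finset.mem_Icc] at hj
  exact hc _ (by omega)

theorem block_bound_x : ∃ C : ℝ, 0 < C ∧ ∀ (R H x : ℕ) (α η : ℝ) (c : ℕ → ℂ) (u : ℕ → ℝ),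
    1 ≤ R → R ≤ H → H ≤ x → 0 < η →
    (∀ d : ℕ, 1 ≤ d → d ≤ R → η ≤ nd ((d : ℝ) * α)) →
    (∀ n, ‖c n‖ ≤ 1) → c 0 = 0 → (∀ n, x < n → c n = 0) → (∀ m, |u m| ≤ 1) →
    ‖∑ p ∈ dyP R, ∑ m ∈ Finset.Icc 1 ((x + H) / p),
        (((u m : ℝ) : ℂ) * eC (((p : ℝ) * (m : ℝ)) * α) *
          ∑ j ∈ Finset.Icc 1 H, c (p * m - j))‖ ≤
      C * H * x * (((dyP R).card : ℝ) / R) *
        Real.sqrt (1 / ((dyP R).card : ℝ) + (R : ℝ) / (H * η)) := by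
  refine ⟨4, by norm_num, ?_⟩
  intro R H x α η c u hR hRH hHx hη hα hc1 hc0 hcx hu
  rcases Nat.eq_zero_or_pos (dyP R).card with hS0 | hSpos
  · rw [hS0, Finset.card_eq_zero.1 hS0]
    simp
  obtain ⟨M, hM⟩ : ∃ M : ℕ, M = (2 * x) / R := ⟨_, rfl⟩
  have hRr : (0 : ℝ) < R := by exact_mod_cast hR
  have hHr : (0 : ℝ) < H := by exact_mod_cast (lt_of_lt_of_le hR hRH)
  have hxr : (0 : ℝ) < x := by exact_mod_cast (lt_of_lt_of_le (lt_of_lt_of_le hR hRH) hHx)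
  have hSr : (0 : ℝ) < ((dyP R).card : ℝ) := by exact_mod_cast hSpos
  have hMr : (M : ℝ) ≤ 2 * x / R := by
    rw [hM]
    refine le_trans Nat.cast_div_le ?_
    push_cast
    exact le_refl _
  -- extend the range of `m`
  have hext : ∀ p ∈ dyP R, ∑ m ∈ Finset.Icc 1 ((x + H) / p),
        (((u m : ℝ) : ℂ) * eC (((p : ℝ) * (m : ℝ)) * α) *
          ∑ j ∈ Finset.Icc 1 H, c (p * m - j)) = ∑ m ∈ Finset.Icc 1 M,
        (((u m : ℝ) : ℂ) * eC (((p : ℝ) * (m : ℝ)) * α) *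
          ∑ j ∈ Finset.Icc 1 H, c (p * m - j)) := by
    intro p hp
    obtain ⟨hp1, hp2⟩ := x06_mem R p hp
    refine Finset.sum_subset ?_ ?_
    · refine Finset.Icc_subset_Icc le_rfl ?_
      rw [hM]
      exact Nat.div_le_div (by omega) hp1.le (by omega)
    · intro m hm hm2
      rw [Finset.mem_Icc] at hm hm2
      have h1 : (x + H) / p < m := by
        by_contra hcon
        exact hm2 ⟨hm.1, not_lt.1 hcon⟩
      have h2 : x + H < p * m := by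
        rw [Nat.div_lt_iff_lt_mul (by omega)] at h1
        rwa [mul_comm p m]
      rw [x06_vanish H x c hcx (p * m) h2, mul_zero]
  rw [Finset.sum_congr rfl hext, Finset.sum_comm]
  -- the inner sums
  have hfac : ∀ m ∈ Finset.Icc 1 M, ∑ p ∈ dyP R, (((u m : ℝ) : ℂ) *
      eC (((p : ℝ) * (m : ℝ)) * α) * ∑ j ∈ Finset.Icc 1 H, c (p * m - j)) =
      ((u m : ℝ) : ℂ) * ∑ p ∈ dyP R, (eC (((p : ℝ) * (m : ℝ)) * α) *
        ∑ j ∈ Finset.Icc 1 H, c (p * m - j)) := by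
    intro m _
    rw [Finset.mul_sum]
    exact Finset.sum_congr rfl (fun p _ => by ring)
  rw [Finset.sum_congr rfl hfac]
  -- the mean square
  have hsq : ∑ m ∈ Finset.Icc 1 M, ‖∑ p ∈ dyP R, (eC (((p : ℝ) * (m : ℝ)) * α) *
        ∑ j ∈ Finset.Icc 1 H, c (p * m - j))‖ ^ 2 ≤
      ∑ p ∈ dyP R, ∑ p' ∈ dyP R, ((if p = p' then 8 * (H : ℝ) ^ 2 * x / R else 0) +
        2 * H * x / η) := by
    refine x06_sq (dyP R) (Finset.Icc 1 M) (fun p m => eC (((p : ℝ) * (m : ℝ)) * α) *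
        ∑ j ∈ Finset.Icc 1 H, c (p * m - j)) _ ?_
    intro p hp p' hp'
    have h1 : ∀ m ∈ Finset.Icc 1 M, (eC (((p : ℝ) * (m : ℝ)) * α) *
        ∑ j ∈ Finset.Icc 1 H, c (p * m - j)) * starRingEnd ℂ
          (eC (((p' : ℝ) * (m : ℝ)) * α) * ∑ j ∈ Finset.Icc 1 H, c (p' * m - j)) =
        eC ((m : ℝ) * (((p : ℝ) - (p' : ℝ)) * α)) *
          ((∑ j ∈ Finset.Icc 1 H, c (p * m - j)) *
          starRingEnd ℂ (∑ j ∈ Finset.Icc 1 H, c (p' * m - j))) := by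
      intro m _
      have h2 : (m : ℝ) * (((p : ℝ) - (p' : ℝ)) * α) =
          ((p : ℝ) * (m : ℝ)) * α + -(((p' : ℝ) * (m : ℝ)) * α) := by ring
      rw [map_mul, conj_eC, h2, eC_add]
      ring
    rw [Finset.sum_congr rfl h1]
    have hpos : (0 : ℝ) ≤ 2 * H * x / η := by positivity
    by_cases hpp : p = p'
    · rw [if_pos hpp]
      have h3 := pair_bound_x R H x M p p' hR hRH (x06_mem R p hp) (x06_mem R p' hp') c hc1 hc0
        hcx (((p : ℝ) - (p' : ℝ)) * α) (2 * (H : ℝ) / R) (by positivity) (by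
          intro A A' hA
          have h4 : ((p : ℝ) - (p' : ℝ)) * α = 0 := by
            rw [hpp, sub_self, zero_mul]
          rw [h4]
          exact x06_diag R H hR hRH A A' hA)
      refine h3.trans ?_
      have h5 : 4 * (H : ℝ) * (2 * (H : ℝ) / R) * x = 8 * (H : ℝ) ^ 2 * x / R := by ring
      rw [h5]
      linarith
    · rw [if_neg hpp, zero_add]
      have h3 := pair_bound_x R H x M p p' hR hRH (x06_mem R p hp) (x06_mem R p' hp') c hc1 hc0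
        hcx (((p : ℝ) - (p' : ℝ)) * α) (1 / (2 * η)) (by positivity) (by
          intro A A' _
          exact x06_off η hη _
            (x06_nd R α η hα p p' (x06_mem R p hp) (x06_mem R p' hp') hpp) A A')
      refine h3.trans (le_of_eq ?_)
      field_simp
      ring
  have hsum : ∑ p ∈ dyP R, ∑ p' ∈ dyP R, ((if p = p' then 8 * (H : ℝ) ^ 2 * x / R else 0) +
        2 * H * x / η) = ((dyP R).card : ℝ) * (8 * (H : ℝ) ^ 2 * x / R) +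
        ((dyP R).card : ℝ) ^ 2 * (2 * H * x / η) := by
    have h1 : ∀ p ∈ dyP R, ∑ p' ∈ dyP R, ((if p = p' then 8 * (H : ℝ) ^ 2 * x / R else 0) +
        2 * H * x / η) = 8 * (H : ℝ) ^ 2 * x / R + ((dyP R).card : ℝ) * (2 * H * x / η) := by
      intro p hp
      rw [Finset.sum_add_distrib, Finset.sum_ite_eq, if_pos hp, Finset.sum_const, nsmul_eq_mul]
    rw [Finset.sum_congr rfl h1, Finset.sum_const, nsmul_eq_mul]
    ring
  rw [hsum] at hsq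
  -- Cauchy-Schwarz
  have hcs : ‖∑ m ∈ Finset.Icc 1 M, ((u m : ℝ) : ℂ) * ∑ p ∈ dyP R,
      (eC (((p : ℝ) * (m : ℝ)) * α) * ∑ j ∈ Finset.Icc 1 H, c (p * m - j))‖ ^ 2 ≤
      (M : ℝ) * ∑ m ∈ Finset.Icc 1 M, ‖∑ p ∈ dyP R, (eC (((p : ℝ) * (m : ℝ)) * α) *
        ∑ j ∈ Finset.Icc 1 H, c (p * m - j))‖ ^ 2 := by
    have h1 : ‖∑ m ∈ Finset.Icc 1 M, ((u m : ℝ) : ℂ) * ∑ p ∈ dyP R,
      (eC (((p : ℝ) * (m : ℝ)) * α) * ∑ j ∈ Finset.Icc 1 H, c (p * m - j))‖ ≤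
        ∑ m ∈ Finset.Icc 1 M, ‖∑ p ∈ dyP R, (eC (((p : ℝ) * (m : ℝ)) * α) *
        ∑ j ∈ Finset.Icc 1 H, c (p * m - j))‖ := by
      refine (norm_sum_le _ _).trans (Finset.sum_le_sum fun m _ => ?_)
      rw [norm_mul, Complex.norm_real, Real.norm_eq_abs]
      exact mul_le_of_le_one_left (norm_nonneg _) (hu m)
    have h2 := sq_sum_le_card_mul_sum_sq (s := Finset.Icc 1 M)
      (f := fun m => ‖∑ p ∈ dyP R, (eC (((p : ℝ) * (m : ℝ)) * α) *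
        ∑ j ∈ Finset.Icc 1 H, c (p * m - j))‖)
    rw [Nat.card_Icc, Nat.add_sub_cancel] at h2
    exact (pow_le_pow_left₀ (norm_nonneg _) h1 2).trans h2
  have hfin : ‖∑ m ∈ Finset.Icc 1 M, ((u m : ℝ) : ℂ) * ∑ p ∈ dyP R,
      (eC (((p : ℝ) * (m : ℝ)) * α) * ∑ j ∈ Finset.Icc 1 H, c (p * m - j))‖ ^ 2 ≤
      (4 * H * x * (((dyP R).card : ℝ) / R)) ^ 2 *
        (1 / ((dyP R).card : ℝ) + (R : ℝ) / (H * η)) := by
    refine hcs.trans ?_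
    have h1 : (0 : ℝ) ≤ ((dyP R).card : ℝ) * (8 * (H : ℝ) ^ 2 * x / R) +
        ((dyP R).card : ℝ) ^ 2 * (2 * H * x / η) := by positivity
    refine (mul_le_mul hMr hsq (Finset.sum_nonneg fun m _ => by positivity)
      (by positivity)).trans ?_
    have h2 : (4 * H * x * (((dyP R).card : ℝ) / R)) ^ 2 *
        (1 / ((dyP R).card : ℝ) + (R : ℝ) / (H * η)) -
        2 * (x : ℝ) / R * (((dyP R).card : ℝ) * (8 * (H : ℝ) ^ 2 * x / R) +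
        ((dyP R).card : ℝ) ^ 2 * (2 * H * x / η)) =
        12 * ((dyP R).card : ℝ) ^ 2 * H * x ^ 2 / (R * η) := by
      field_simp
      ring
    have h3 : (0 : ℝ) ≤ 12 * ((dyP R).card : ℝ) ^ 2 * H * x ^ 2 / (R * η) := by positivity
    linarith
  have hnn : (0 : ℝ) ≤ 4 * H * x * (((dyP R).card : ℝ) / R) := by positivity
  have hle := Real.le_sqrt_of_sq_le hfin
  rw [Real.sqrt_mul (sq_nonneg _), Real.sqrt_sq hnn] at hle
  exact hle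

end MRC
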