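import Pool.Agent.Helper33.MRC.Defs
import Pool.Agent.Helper33.MRB.B07

/-!
# MRC-X08: major arcs from arithmetic progressions

Proof. `ε ≤ 1`. `nd(qα) ≤ K/H`: with `a = round(qα)` and `β = α - a/q` we have `|β| ≤ K/(qH) ≤ K/H`.
Let `f(n) = b(Ω n) - mA x b` (`|f| ≤ 2`) and `H1 = ⌊εH/(64 (K+1))⌋` (`≥ 1` and as large as we like when
`H` is large). Cut `[1, H]` into blocks `(iH1, (i+1)H1]`, `0 ≤ i < I = ⌊H/H1⌋`, and a rest with at most
`H1` elements (contribution `≤ 2H1`). On the `i`-th block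
`e(jα) = e(ja/q) e(jβ) = e(ja/q) (e(iH1β) + O(2π H1 |β|))` with `2π H1 |β| ≤ 2π ε/64`, so
`‖∑_{j≤H} f(n+j) e(jα)‖ ≤ ∑_{i<I} ‖∑_{j'≤H1} f(n+iH1+j') e(j'a/q)‖ + 2 H 2π ε/64 + 2H1`.
For each residue `r mod q`, `e(j'a/q)` is constant on `n + iH1 + j' ≡ r`, so the `i`-th norm is at most
`∑_{r<q} |∑_{j'≤H1, n+iH1+j' ≡ r} f(n+iH1+j')| =: ∑_r G_r(n + iH1)`, and
`∑_{n≤x} G_r(n+s) ≤ ∑_{n≤x} G_r(n) + 2 H1 s`. By `MRAPx` for `q`, `ε' = ε/(8q)` and `H1`:
`∑_{n≤x} G_r(n) ≤ ε' H1 x`. Total `≤ I q ε' H1 x + I q 2 H1 H + H x (4π ε/64) + 2 H1 x ≤ ε H x` for `x`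
large.
-/

set_option autoImplicit false

namespace MRC

open Finset MRP MRB

private theorem eC_sub_le (x y : ℝ) : ‖eC (x + y) - eC x‖ ≤ 2 * Real.pi * |y| := by
  have h1 : eC (x + y) - eC x = eC x * (eC y - 1) := by rw [eC_add]; ring
  rw [h1, norm_mul, norm_eC, one_mul]
  have h2 : eC y = Complex.exp (Complex.I * ((2 * Real.pi * y : ℝ) : ℂ)) := by
    unfold eC; congr 1; push_cast; ring
  rw [h2]
  refine (Real.norm_exp_I_mul_ofReal_sub_one_le).trans ?_
  rw [Real.norm_eq_abs, abs_mul, abs_of_pos (by positivity : (0:ℝ) < 2 * Real.pi)]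

private theorem sum_blocks (g : ℕ → ℂ) (L I : ℕ) :
    ∑ j ∈ Finset.range (I * L), g j = ∑ i ∈ Finset.range I, ∑ j ∈ Finset.range L, g (i * L + j) := by
  induction I with
  | zero => simp
  | succ I ih =>
    rw [Nat.succ_mul, Finset.sum_range_add, ih, Finset.sum_range_succ]

private theorem sum_Icc_range (g : ℕ → ℂ) (L : ℕ) :
    ∑ j ∈ Finset.Icc 1 L, g j = ∑ j ∈ Finset.range L, g (j + 1) := by
  rw [Finset.range_eq_Ico, Finset.sum_Ico_add' g 0 L 1]
  apply Finset.sum_congr _ fun _ _ => rfl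
  ext x; simp only [Finset.mem_Icc, Finset.mem_Ico]; omega

/-- `[1, H]` is cut into blocks. -/
private theorem cut (g : ℕ → ℂ) (L H : ℕ) (hL : 1 ≤ L) (c : ℝ) (hc : ∀ j, ‖g j‖ ≤ c) :
    ‖∑ j ∈ Finset.Icc 1 H, g j‖ ≤
      ∑ i ∈ Finset.range (H / L), ‖∑ j ∈ Finset.Icc 1 L, g (i * L + j)‖ + c * L := by
  have hc0 : 0 ≤ c := (norm_nonneg _).trans (hc 0)
  have h1 : ∑ j ∈ Finset.Icc 1 H, g j =
      ∑ i ∈ Finset.range (H / L), ∑ j ∈ Finset.Icc 1 L, g (i * L + j) +
        ∑ j ∈ Finset.range (H % L), g (H / L * L + j + 1) := by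
    rw [sum_Icc_range]
    conv_lhs => rw [show H = H / L * L + H % L from (Nat.div_add_mod' H L).symm]
    rw [Finset.sum_range_add, sum_blocks (fun j => g (j + 1))]
    congr 1
    apply Finset.sum_congr rfl
    intro i _
    rw [sum_Icc_range (fun j => g (i * L + j))]
    rfl
  rw [h1]
  refine (norm_add_le _ _).trans ?_
  refine add_le_add (norm_sum_le _ _) ?_
  refine (norm_sum_le _ _).trans ?_
  refine (Finset.sum_le_sum fun j _ => hc _).trans ?_
  rw [Finset.sum_const, Finset.card_range, nsmul_eq_mul, mul_comm]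
  have : H % L ≤ L := (Nat.mod_lt H hL).le
  have : ((H % L : ℕ) : ℝ) ≤ L := by exact_mod_cast this
  exact mul_le_mul_of_nonneg_left this hc0

/-- a block: group by the residue -/
private theorem group (f : ℕ → ℝ) (m n s q L : ℕ) (a : ℤ) (hq : 1 ≤ q) (hm : m = n + s) :
    ‖∑ j ∈ Finset.Icc 1 L, (f (m + j) : ℂ) * eC (((s + j : ℕ) : ℝ) * ((a : ℝ) / q))‖ ≤
      ∑ r ∈ Finset.range q, |∑ j ∈ (Finset.Icc 1 L).filter (fun j => (m + j) % q = r % q),
        f (m + j)| := by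
  have hq0 : (q : ℝ) ≠ 0 := by positivity
  have h1 : ∀ j ∈ Finset.Icc 1 L, (m + j) % q ∈ Finset.range q := fun j _ =>
    Finset.mem_range.2 (Nat.mod_lt _ hq)
  rw [← Finset.sum_fiberwise_of_maps_to h1]
  refine (norm_sum_le _ _).trans (Finset.sum_le_sum fun r hr => ?_)
  have hrq : r % q = r := Nat.mod_eq_of_lt (Finset.mem_range.1 hr)
  have h2 : ∑ j ∈ (Finset.Icc 1 L).filter (fun j => (m + j) % q = r),
      (f (m + j) : ℂ) * eC (((s + j : ℕ) : ℝ) * ((a : ℝ) / q)) =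
      eC ((r : ℝ) * ((a : ℝ) / q) - (n : ℝ) * ((a : ℝ) / q)) *
        ((∑ j ∈ (Finset.Icc 1 L).filter (fun j => (m + j) % q = r), f (m + j) : ℝ) : ℂ) := by
    rw [Complex.ofReal_sum, Finset.mul_sum]
    refine Finset.sum_congr rfl fun j hj => ?_
    have hj2 := (Finset.mem_filter.1 hj).2
    have h3 : m + j = q * ((m + j) / q) + r := by
      have := Nat.div_add_mod (m + j) q
      rw [hj2] at this; exact this.symm
    have h4 : ((s + j : ℕ) : ℝ) * ((a : ℝ) / q) =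
        (r : ℝ) * ((a : ℝ) / q) - (n : ℝ) * ((a : ℝ) / q) + ((((m + j) / q : ℕ) * a : ℤ) : ℝ) := by
      have h5 : ((m + j : ℕ) : ℝ) = (q : ℝ) * (((m + j) / q : ℕ) : ℝ) + r := by
        exact_mod_cast h3
      have h6 : ((s + j : ℕ) : ℝ) = ((m + j : ℕ) : ℝ) - n := by
        rw [hm]; push_cast; ring
      rw [h6, h5]
      simp only [Int.cast_mul, Int.cast_natCast]
      field_simp
      ring
    rw [h4, eC_add, eC_int, mul_one, mul_comm]
  rw [h2, norm_mul, norm_eC, one_mul, Complex.norm_real, Real.norm_eq_abs, hrq]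

private theorem pointwise (f : ℕ → ℝ) (hf : ∀ n, |f n| ≤ 2) (n q L H : ℕ) (a : ℤ) (β : ℝ)
    (hq : 1 ≤ q) (hL : 1 ≤ L) :
    ‖∑ j ∈ Finset.Icc 1 H, (f (n + j) : ℂ) * eC ((j : ℝ) * ((a : ℝ) / q + β))‖ ≤
      ∑ i ∈ Finset.range (H / L), ∑ r ∈ Finset.range q,
        |∑ j ∈ (Finset.Icc 1 L).filter (fun j => (n + i * L + j) % q = r % q),
          f (n + i * L + j)| + H * (4 * Real.pi * L * |β|) + 2 * L := by
  have hnorm : ∀ j, ‖(f (n + j) : ℂ) * eC ((j : ℝ) * ((a : ℝ) / q + β))‖ ≤ 2 := by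
    intro j
    rw [norm_mul, norm_eC, mul_one, Complex.norm_real, Real.norm_eq_abs]
    exact hf _
  refine (cut _ L H hL 2 hnorm).trans ?_
  refine add_le_add ?_ le_rfl
  have hblock : ∀ i ∈ Finset.range (H / L),
      ‖∑ j ∈ Finset.Icc 1 L, (f (n + (i * L + j)) : ℂ) * eC (((i * L + j : ℕ) : ℝ) * ((a : ℝ) / q + β))‖
      ≤ (∑ r ∈ Finset.range q,
        |∑ j ∈ (Finset.Icc 1 L).filter (fun j => (n + i * L + j) % q = r % q),
          f (n + i * L + j)|) + L * (4 * Real.pi * L * |β|) := by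
    intro i _
    have h1 : ∑ j ∈ Finset.Icc 1 L, (f (n + (i * L + j)) : ℂ) *
        eC (((i * L + j : ℕ) : ℝ) * ((a : ℝ) / q + β)) =
        eC (((i * L : ℕ) : ℝ) * β) * (∑ j ∈ Finset.Icc 1 L, (f (n + i * L + j) : ℂ) *
          eC (((i * L + j : ℕ) : ℝ) * ((a : ℝ) / q))) +
        ∑ j ∈ Finset.Icc 1 L, (f (n + i * L + j) : ℂ) *
          eC (((i * L + j : ℕ) : ℝ) * ((a : ℝ) / q)) *
            (eC (((i * L : ℕ) : ℝ) * β + (j : ℝ) * β) - eC (((i * L : ℕ) : ℝ) * β)) := by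
      rw [Finset.mul_sum, ← Finset.sum_add_distrib]
      refine Finset.sum_congr rfl fun j _ => ?_
      have h2 : ((i * L + j : ℕ) : ℝ) * ((a : ℝ) / q + β) =
          ((i * L + j : ℕ) : ℝ) * ((a : ℝ) / q) + (((i * L : ℕ) : ℝ) * β + (j : ℝ) * β) := by
        push_cast; ring
      rw [h2, eC_add, Nat.add_assoc]
      ring
    rw [h1]
    refine (norm_add_le _ _).trans (add_le_add ?_ ?_)
    · rw [norm_mul, norm_eC, one_mul]
      exact group f (n + i * L) n (i * L) q L a hq rfl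
    · refine (norm_sum_le _ _).trans ?_
      have h3 : ∀ j ∈ Finset.Icc 1 L, ‖(f (n + i * L + j) : ℂ) *
          eC (((i * L + j : ℕ) : ℝ) * ((a : ℝ) / q)) *
            (eC (((i * L : ℕ) : ℝ) * β + (j : ℝ) * β) - eC (((i * L : ℕ) : ℝ) * β))‖ ≤
            4 * Real.pi * L * |β| := by
        intro j hj
        rw [norm_mul, norm_mul, norm_eC, mul_one, Complex.norm_real, Real.norm_eq_abs]
        have h4 := eC_sub_le (((i * L : ℕ) : ℝ) * β) ((j : ℝ) * β)
        have h5 : |(j : ℝ) * β| ≤ L * |β| := by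
          rw [abs_mul, abs_of_nonneg (Nat.cast_nonneg j)]
          have : (j : ℝ) ≤ L := by exact_mod_cast (Finset.mem_Icc.1 hj).2
          exact mul_le_mul_of_nonneg_right this (abs_nonneg _)
        have h6 : 2 * Real.pi * |(j : ℝ) * β| ≤ 2 * Real.pi * (L * |β|) :=
          mul_le_mul_of_nonneg_left h5 (by positivity)
        calc _ ≤ 2 * (2 * Real.pi * (L * |β|)) :=
              mul_le_mul (hf _) (h4.trans h6) (norm_nonneg _) (by norm_num)
          _ = _ := by ring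
      refine (Finset.sum_le_sum h3).trans ?_
      rw [Finset.sum_const, Nat.card_Icc, nsmul_eq_mul]
      simp
  refine (Finset.sum_le_sum hblock).trans ?_
  rw [Finset.sum_add_distrib, Finset.sum_const, Finset.card_range, nsmul_eq_mul]
  refine add_le_add le_rfl ?_
  have h7 : ((H / L : ℕ) : ℝ) * L ≤ H := by
    have := Nat.div_mul_le_self H L
    exact_mod_cast this
  have h8 : 0 ≤ 4 * Real.pi * L * |β| := by positivity
  nlinarith

private theorem shift (G : ℕ → ℝ) (C : ℝ) (h0 : ∀ n, 0 ≤ G n) (hG : ∀ n, G n ≤ C) (x s : ℕ) :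
    ∑ n ∈ Finset.Icc 1 x, G (n + s) ≤ ∑ n ∈ Finset.Icc 1 x, G n + s * C := by
  have h1 : ∑ n ∈ Finset.Icc 1 x, G (n + s) = ∑ n ∈ Finset.Icc (1 + s) (x + s), G n := by
    rw [← Finset.map_add_right_Icc, Finset.sum_map]; rfl
  rw [h1]
  have h2 : Finset.Icc (1 + s) (x + s) ⊆ Finset.Icc 1 x ∪ Finset.Ioc x (x + s) := by
    intro n hn
    simp only [Finset.mem_union, Finset.mem_Icc, Finset.mem_Ioc] at hn ⊢
    omega
  refine (Finset.sum_le_sum_of_subset_of_nonneg h2 fun n _ _ => h0 n).trans ?_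
  rw [Finset.sum_union (by
    rw [Finset.disjoint_left]; intro n h1 h2
    simp only [Finset.mem_Icc, Finset.mem_Ioc] at h1 h2; omega)]
  refine add_le_add le_rfl ?_
  refine (Finset.sum_le_sum fun n _ => hG n).trans ?_
  rw [Finset.sum_const, Nat.card_Ioc, nsmul_eq_mul]
  simp

private theorem mA_abs (x : ℕ) (b : ℕ → ℝ) (hb : ∀ m, |b m| ≤ 1) : |mA x b| ≤ 1 := by
  unfold mA
  rcases Nat.eq_zero_or_pos x with rfl | hx
  · simp
  rw [abs_div, abs_of_nonneg (Nat.cast_nonneg x : (0 : ℝ) ≤ (x : ℝ)), div_le_one (by exact_mod_cast hx)]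
  refine (Finset.abs_sum_le_sum_abs _ _).trans ?_
  refine (Finset.sum_le_sum fun n _ => hb _).trans ?_
  simp

theorem majorx_of (h : MRAPx) : MAJORx := by
  intro q hq K ε hK hε
  have hqR : (1 : ℝ) ≤ q := by exact_mod_cast hq
  have hq0 : (0 : ℝ) < q := by linarith
  obtain ⟨H1, hH1⟩ := h q hq (ε / (8 * q)) (by positivity)
  refine ⟨⌈64 * (K + 1) * ((H1 : ℝ) + 1) / ε⌉₊, fun H hH => ?_⟩
  have hHR : 64 * (K + 1) * ((H1 : ℝ) + 1) / ε ≤ H := Nat.ceil_le.1 hH
  have hHpos : (0 : ℝ) < H := lt_of_lt_of_le (by positivity) hHR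
  set L : ℕ := ⌊ε * H / (64 * (K + 1))⌋₊ with hLdef
  have hL1 : H1 + 1 ≤ L := by
    rw [hLdef]
    apply Nat.le_floor
    rw [le_div_iff₀ (by positivity)]
    rw [div_le_iff₀ hε] at hHR
    push_cast
    nlinarith
  have hL2 : (L : ℝ) ≤ ε * H / (64 * (K + 1)) := Nat.floor_le (by positivity)
  have hLpos : 1 ≤ L := by omega
  obtain ⟨x1, hx1⟩ := hH1 L (by omega)
  refine ⟨max x1 ⌈16 * q * H / ε⌉₊, fun x hx b hb α hα => ?_⟩
  have hxx1 : x1 ≤ x := (le_max_left _ _).trans hx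
  have hxR : 16 * q * H / ε ≤ x := Nat.ceil_le.1 ((le_max_right _ _).trans hx)
  have hM := hx1 x hxx1 b hb
  set f : ℕ → ℝ := fun n => b (Om n) - mA x b with hf
  have hf2 : ∀ n, |f n| ≤ 2 := by
    intro n
    have h1 := abs_sub (b (Om n)) (mA x b)
    have h2 := hb (Om n)
    have h3 := mA_abs x b hb
    show |b (Om n) - mA x b| ≤ 2
    linarith
  set a : ℤ := round ((q : ℝ) * α) with ha
  set β : ℝ := α - (a : ℝ) / q with hβ
  have hβ1 : |β| ≤ K / H := by
    have h1 : β = ((q : ℝ) * α - a) / q := by rw [hβ]; field_simp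
    rw [h1, abs_div, abs_of_pos hq0]
    have h2 : |(q : ℝ) * α - a| ≤ K / H := hα
    have h3 : 0 ≤ |(q : ℝ) * α - a| := abs_nonneg _
    exact (div_le_self h3 hqR).trans h2
  have hαβ : α = (a : ℝ) / q + β := by rw [hβ]; ring
  set G : ℕ → ℕ → ℝ := fun r m => |∑ j ∈ (Finset.Icc 1 L).filter (fun j => (m + j) % q = r % q),
    f (m + j)| with hG
  have hG0 : ∀ r m, 0 ≤ G r m := fun r m => abs_nonneg _
  have hG2 : ∀ r m, G r m ≤ 2 * L := by
    intro r m
    refine (Finset.abs_sum_le_sum_abs _ _).trans ?_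
    refine (Finset.sum_le_sum fun j _ => hf2 _).trans ?_
    rw [Finset.sum_const, nsmul_eq_mul]
    have h1 : ((Finset.Icc 1 L).filter (fun j => (m + j) % q = r % q)).card ≤ L := by
      refine (Finset.card_filter_le _ _).trans ?_
      simp
    have h2 : (((Finset.Icc 1 L).filter (fun j => (m + j) % q = r % q)).card : ℝ) ≤ L := by
      exact_mod_cast h1
    linarith
  have hGs : ∀ r, ∑ n ∈ Finset.Icc 1 x, G r n ≤ ε / (8 * q) * L * x := fun r => hM r
  have hpt : ∀ n ∈ Finset.Icc 1 x,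
      ‖∑ j ∈ Finset.Icc 1 H, ((b (Om (n + j)) - mA x b : ℝ) : ℂ) * eC ((j : ℝ) * α)‖ ≤
      (∑ i ∈ Finset.range (H / L), ∑ r ∈ Finset.range q, G r (n + i * L)) +
        (H * (4 * Real.pi * L * |β|) + 2 * L) := by
    intro n _
    have := pointwise f hf2 n q L H a β hq hLpos
    rw [← hαβ] at this
    rw [← add_assoc]
    exact this
  refine (Finset.sum_le_sum hpt).trans ?_
  rw [Finset.sum_add_distrib, Finset.sum_const, Nat.card_Icc, nsmul_eq_mul]
  have h1 : ∑ n ∈ Finset.Icc 1 x, ∑ i ∈ Finset.range (H / L), ∑ r ∈ Finset.range q, G r (n + i * L) ≤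
      ((H / L : ℕ) : ℝ) * (q * (ε / (8 * q) * L * x + H * (2 * L))) := by
    rw [Finset.sum_comm]
    have h2 : ∀ i ∈ Finset.range (H / L),
        ∑ n ∈ Finset.Icc 1 x, ∑ r ∈ Finset.range q, G r (n + i * L) ≤
          q * (ε / (8 * q) * L * x + H * (2 * L)) := by
      intro i hi
      rw [Finset.sum_comm]
      have h3 : ∀ r ∈ Finset.range q, ∑ n ∈ Finset.Icc 1 x, G r (n + i * L) ≤
          ε / (8 * q) * L * x + H * (2 * L) := by
        intro r _
        refine (shift (G r) (2 * L) (hG0 r) (hG2 r) x (i * L)).trans ?_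
        refine add_le_add (hGs r) ?_
        have h4 : i * L ≤ H := by
          have h5 := Nat.div_mul_le_self H L
          have h6 := Finset.mem_range.1 hi
          exact (Nat.mul_le_mul_right L h6.le).trans h5
        have h7 : ((i * L : ℕ) : ℝ) ≤ H := by exact_mod_cast h4
        exact mul_le_mul_of_nonneg_right h7 (by positivity)
      refine (Finset.sum_le_sum h3).trans ?_
      rw [Finset.sum_const, Finset.card_range, nsmul_eq_mul]
    refine (Finset.sum_le_sum h2).trans ?_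
    rw [Finset.sum_const, Finset.card_range, nsmul_eq_mul]
  have hIL : ((H / L : ℕ) : ℝ) * L ≤ H := by
    have := Nat.div_mul_le_self H L
    exact_mod_cast this
  have h2 : ((H / L : ℕ) : ℝ) * (q * (ε / (8 * q) * L * x + H * (2 * L))) =
      (((H / L : ℕ) : ℝ) * L) * (ε / 8 * x + 2 * q * H) := by
    field_simp
  have h3 : (((H / L : ℕ) : ℝ) * L) * (ε / 8 * x + 2 * q * H) ≤ H * (ε / 8 * x + 2 * q * H) :=
    mul_le_mul_of_nonneg_right hIL (by positivity)
  have h4 : 2 * q * H ≤ ε / 8 * x := by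
    rw [div_le_iff₀ hε] at hxR
    linarith
  have h5 : H * (ε / 8 * x + 2 * q * H) ≤ H * (ε / 4 * x) := by
    refine mul_le_mul_of_nonneg_left ?_ hHpos.le
    linarith
  have hpi : Real.pi < 3.15 := Real.pi_lt_d2
  have hLβ : (L : ℝ) * |β| ≤ ε / 64 := by
    have h6 : (L : ℝ) * |β| ≤ (ε * H / (64 * (K + 1))) * (K / H) :=
      mul_le_mul hL2 hβ1 (abs_nonneg _) (by positivity)
    refine h6.trans ?_
    have h7 : (ε * H / (64 * (K + 1))) * (K / H) = ε / 64 * (K / (K + 1)) := by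
      field_simp
    rw [h7]
    have h8 : K / (K + 1) ≤ 1 := by rw [div_le_one (by linarith)]; linarith
    have : 0 ≤ ε / 64 := by positivity
    nlinarith
  have h9 : (H : ℝ) * (4 * Real.pi * L * |β|) ≤ H * (ε / 4) := by
    refine mul_le_mul_of_nonneg_left ?_ hHpos.le
    have h10 : 4 * Real.pi * L * |β| = 4 * Real.pi * (L * |β|) := by ring
    rw [h10]
    have h11 : 4 * Real.pi * (L * |β|) ≤ 4 * Real.pi * (ε / 64) :=
      mul_le_mul_of_nonneg_left hLβ (by positivity)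
    refine h11.trans ?_
    nlinarith [Real.pi_pos]
  have h12 : 2 * (L : ℝ) ≤ H * (ε / 32) := by
    have h13 : ε * H / (64 * (K + 1)) ≤ ε * H / 64 := by
      apply div_le_div_of_nonneg_left (by positivity) (by norm_num)
      nlinarith
    linarith
  have hx0 : (0 : ℝ) ≤ x := Nat.cast_nonneg x
  have h14 : ((x + 1 - 1 : ℕ) : ℝ) * (H * (4 * Real.pi * L * |β|) + 2 * L) ≤
      x * (H * (ε / 4) + H * (ε / 32)) := by
    rw [Nat.add_sub_cancel]
    exact mul_le_mul_of_nonneg_left (add_le_add h9 h12) hx0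
  have h15 : 0 ≤ ε * H * x := by positivity
  nlinarith

end MRC
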