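import Pool.Agent.Helper33.MRC.Defs
import Pool.Agent.Helper33.MRB.C02

/-!
# MRC-X09: exponential sums from minor and major arcs

Proof. `ε ≤ 1`. Take `Q`, `K` from `MINORx` for `ε/2` and `K' = K + 4/ε`. For each `q ∈ [1, Q]` take `H0(q)`
from `MAJORx` for `q`, `K'`, `ε`; `H0` = maximum of all of them and the one of `MINORx` and `1`. Given `H`,
`x0` = maximum of the corresponding `x0` (finitely many). For `α`: if some `1 ≤ d ≤ Q` has
`nd(dα) < K'/H`, use `MAJORx`. Otherwise `K/H ≤ K'/H ≤ nd(dα)` for all such `d`, and with `m = mA x b`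
`‖∑_j (b(Ω(n+j)) - m) e(jα)‖ ≤ ‖∑_j b(Ω(n+j)) e(jα)‖ + |m| ‖∑_{j≤H} e(jα)‖`, `|m| ≤ 1`, and by `MRB.geom_le`
and `nd(α) ≥ K'/H`: `‖∑_{j≤H} e(jα)‖ ≤ H/(2K') ≤ εH/8`. Total `≤ (ε/2) H x + (ε/8) H x`.
-/

set_option autoImplicit false

namespace MRC

open Finset MRP MRB

private theorem x09_mA (x : ℕ) (b : ℕ → ℝ) (hb : ∀ m, |b m| ≤ 1) : |mA x b| ≤ 1 := by
  unfold mA
  rcases Nat.eq_zero_or_pos x with rfl | hx
  · simp
  · have hx' : (0 : ℝ) < x := by exact_mod_cast hx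
    rw [abs_div, abs_of_pos hx', div_le_one hx']
    refine le_trans (Finset.abs_sum_le_sum_abs _ _) ?_
    refine le_trans (Finset.sum_le_sum fun n _ => hb (Om n)) ?_
    simp

theorem expx_of (hm : MINORx) (hM : MAJORx) : EXPx := by
  intro ε hε
  obtain ⟨Q, K, hQ, hK, H1, hH1⟩ := hm (ε / 2) (by positivity)
  have hK' : 0 < K + 4 / ε := by positivity
  have hMq : ∀ q : ℕ, ∃ H0 : ℕ, 1 ≤ q → ∀ H : ℕ, H0 ≤ H →
      ∃ x0 : ℕ, ∀ x : ℕ, x0 ≤ x → ∀ b : ℕ → ℝ, (∀ m, |b m| ≤ 1) → ∀ α : ℝ,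
        nd ((q : ℝ) * α) ≤ (K + 4 / ε) / H →
        ∑ n ∈ Finset.Icc 1 x,
          ‖∑ j ∈ Finset.Icc 1 H, ((b (Om (n + j)) - mA x b : ℝ) : ℂ) * eC ((j : ℝ) * α)‖ ≤
            ε * H * x := by
    intro q
    rcases Nat.eq_zero_or_pos q with rfl | hq
    · exact ⟨0, fun h => absurd h (by norm_num)⟩
    · obtain ⟨H0, h0⟩ := hM q hq (K + 4 / ε) ε hK' hε
      exact ⟨H0, fun _ => h0⟩
  choose Hq hHq using hMq
  refine ⟨max 1 (max H1 ((Finset.Icc 1 Q).sup Hq)), fun H hH => ?_⟩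
  have hHpos : 1 ≤ H := le_trans (le_max_left _ _) hH
  have hHH1 : H1 ≤ H := le_trans (le_trans (le_max_left _ _) (le_max_right _ _)) hH
  have hHq' : ∀ q ∈ Finset.Icc 1 Q, Hq q ≤ H := fun q hq =>
    le_trans (Finset.le_sup (f := Hq) hq)
      (le_trans (le_trans (le_max_right _ _) (le_max_right _ _)) hH)
  have hHR : (0 : ℝ) < H := by exact_mod_cast hHpos
  obtain ⟨x1, hx1⟩ := hH1 H hHH1
  have hxq0 : ∀ q : ℕ, ∃ x0 : ℕ, q ∈ Finset.Icc 1 Q → ∀ x : ℕ, x0 ≤ x →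
      ∀ b : ℕ → ℝ, (∀ m, |b m| ≤ 1) → ∀ α : ℝ,
        nd ((q : ℝ) * α) ≤ (K + 4 / ε) / H →
        ∑ n ∈ Finset.Icc 1 x,
          ‖∑ j ∈ Finset.Icc 1 H, ((b (Om (n + j)) - mA x b : ℝ) : ℂ) * eC ((j : ℝ) * α)‖ ≤
            ε * H * x := by
    intro q
    by_cases hq : q ∈ Finset.Icc 1 Q
    · obtain ⟨x0, h0⟩ := hHq q (Finset.mem_Icc.1 hq).1 H (hHq' q hq)
      exact ⟨x0, fun _ => h0⟩
    · exact ⟨0, fun h => absurd h hq⟩
  choose xq hxq using hxq0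
  refine ⟨max x1 ((Finset.Icc 1 Q).sup xq), fun x hx b hb α => ?_⟩
  have hxx1 : x1 ≤ x := le_trans (le_max_left _ _) hx
  by_cases hd : ∃ d : ℕ, 1 ≤ d ∧ d ≤ Q ∧ nd ((d : ℝ) * α) < (K + 4 / ε) / H
  · obtain ⟨d, hd1, hd2, hd3⟩ := hd
    have hdm : d ∈ Finset.Icc 1 Q := Finset.mem_Icc.2 ⟨hd1, hd2⟩
    exact hxq d hdm x (le_trans (Finset.le_sup (f := xq) hdm) (le_trans (le_max_right _ _) hx))
      b hb α hd3.le
  · push Not at hd
    have hmin := hx1 x hxx1 b hb α (fun d h1 h2 => le_trans (by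
      have h4 : (0 : ℝ) ≤ 4 / ε := by positivity
      gcongr
      linarith) (hd d h1 h2))
    have hg := geom_le 1 H α
    have hnd := hd 1 le_rfl hQ
    rw [Nat.cast_one, one_mul] at hnd
    have hnd2 : 4 / ε / H ≤ nd α := le_trans (by gcongr; linarith) hnd
    set G : ℝ := ‖∑ m ∈ Finset.Icc 1 H, eC ((m : ℝ) * α)‖ with hG
    have hG0 : 0 ≤ G := norm_nonneg _
    have hG1 : G ≤ ε * H / 8 := by
      have h5 : G * (2 * (4 / ε / H)) ≤ 1 :=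
        le_trans (mul_le_mul_of_nonneg_left (by linarith) hG0) hg
      have h6 : G = (G * (2 * (4 / ε / H))) * (ε * H / 8) := by
        field_simp
        ring
      rw [h6]
      calc (G * (2 * (4 / ε / H))) * (ε * H / 8) ≤ 1 * (ε * H / 8) :=
            mul_le_mul_of_nonneg_right h5 (by positivity)
        _ = ε * H / 8 := one_mul _
    have hterm : ∀ n ∈ Finset.Icc 1 x,
        ‖∑ j ∈ Finset.Icc 1 H, ((b (Om (n + j)) - mA x b : ℝ) : ℂ) * eC ((j : ℝ) * α)‖ ≤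
        ‖∑ j ∈ Finset.Icc 1 H, ((b (Om (n + j)) : ℝ) : ℂ) * eC ((j : ℝ) * α)‖ +
          ε * H / 8 := by
      intro n _
      have h7 : ∑ j ∈ Finset.Icc 1 H, ((b (Om (n + j)) - mA x b : ℝ) : ℂ) * eC ((j : ℝ) * α) =
          ∑ j ∈ Finset.Icc 1 H, ((b (Om (n + j)) : ℝ) : ℂ) * eC ((j : ℝ) * α) -
          ((mA x b : ℝ) : ℂ) * ∑ j ∈ Finset.Icc 1 H, eC ((j : ℝ) * α) := by
        rw [Finset.mul_sum, ← Finset.sum_sub_distrib]
        refine Finset.sum_congr rfl fun j _ => ?_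
        push_cast
        ring
      rw [h7]
      refine le_trans (norm_sub_le _ _) ?_
      have h8 : ‖((mA x b : ℝ) : ℂ) * ∑ j ∈ Finset.Icc 1 H, eC ((j : ℝ) * α)‖ ≤ ε * H / 8 := by
        rw [norm_mul, Complex.norm_real, Real.norm_eq_abs]
        calc |mA x b| * ‖∑ j ∈ Finset.Icc 1 H, eC ((j : ℝ) * α)‖ ≤ 1 * G :=
              mul_le_mul_of_nonneg_right (x09_mA x b hb) (norm_nonneg _)
          _ ≤ ε * H / 8 := by rw [one_mul]; exact hG1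
      linarith
    refine le_trans (Finset.sum_le_sum hterm) ?_
    rw [Finset.sum_add_distrib, Finset.sum_const, Nat.card_Icc, Nat.add_sub_cancel, nsmul_eq_mul]
    have h9 : (0 : ℝ) ≤ ε * H * x := by positivity
    nlinarith

end MRC
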