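import Pool.Agent.Helper33.MRC.X03
import Pool.Agent.Helper33.MRC.X07
import Pool.Agent.Helper33.MRC.X08
import Pool.Agent.Helper33.MRC.X09
import Pool.Agent.Helper33.MRC.X13

/-!
# MRC: the blocks (B) and (C) of project MR at a single scale
-/

set_option autoImplicit false

namespace MRC

open Finset MRP MRB

theorem expx_of_chi (h0 : MRCHI0x) (h1 : MRCHI1x) (hl : LAWx) : EXPx :=
  expx_of minorx_holds (majorx_of (mrapx_of h0 h1 hl))

theorem circx_of (h0 : MRCHI0x) (h1 : MRCHI1x) (hl : LAWx) : CIRCx :=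
  circx_of_exp (expx_of_chi h0 h1 hl)

end MRC
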