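import Pool.Agent.Helper33.MRB.B06
import Pool.Agent.Helper33.MRC.X02

/-!
# MRC-X03: the circle step, `EXPx` implies `CIRCx`

Proof. `ε ≤ 1` without loss. Let `C₄` be the constant of `MRB.energy_le`, `π = card (dyP P)`,
`m = mA x b` (`|m| ≤ 1`), `f(n) = b(Ω n) - m` (`|f| ≤ 2`), `N = 6P`,
`F_n(α) = ∑_{j=1}^{3P} f(n+j) e(jα)`.

1. Since `|A| ≤ 1` it is enough to bound `T = ∑_{n≤x} |g(n)|`, `g(n) = ∑_{p ∈ dyP P} σ(p) f(n+p)`,
   `|g| ≤ 2π`.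
2. For `1 ≤ s ≤ P`: `∑_{n≤x} |g(n)| ≤ ∑_{n≤x} |g(n+s)| + 2π s`. Average over `s`:
   `P T ≤ ∑_{n≤x} ∑_{s=1}^P |g(n+s)| + 2 π P²`.
3. Cauchy-Schwarz: `∑_{n≤x} ∑_{s≤P} |g(n+s)| ≤ (P x)^(1/2) (∑_{n≤x} ∑_{s≤P} |g(n+s)|²)^(1/2)`.
4. `corr_le` for `j ↦ f(n+j)`: `∑_{s≤P} |g(n+s)|² ≤ (1/N) ∑_a |S_a|² |F_n(a/N)|²`, `S_a = SPs σ P (a/N)`.
5. For every `τ > 0`: `|S|² ≤ τ² π² + |S|⁴/(τ² π²)`. So the right side of 4 is at most
   `τ² π² (1/N) ∑_a |F_n|² + (τ π)⁻² (1/N) ∑_a |S_a|⁴ |F_n(a/N)|²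
   ≤ τ² π² 12 P + (τπ)⁻² 6P (1/N) ∑_a |S_a|⁴ |F_n(a/N)|` (`parseval_Icc` with `|f| ≤ 2`, and
   `|F_n| ≤ 6P`).
6. Sum over `n ≤ x` and use `EXPx` with `ε₂` for `H = 3P` and `α = a/N`:
   `∑_n |F_n(a/N)| ≤ ε₂ 3P x`; `fourth_le`, `energy_le`: `(1/N) ∑_a |S_a|⁴ ≤ C₄ π⁴/P`. Total:
   `∑_n ∑_{s≤P} |g(n+s)|² ≤ (12 τ² + 18 C₄ ε₂ τ⁻²) π² P x`.
7. `T ≤ π x (12 τ² + 18 C₄ ε₂ τ⁻²)^(1/2) + 2π P`. Take `τ = ε/20`, `ε₂ = τ² ε²/(400 (C₄+1))`, `P0` =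
   maximum of `2` and the `H0` of `EXPx` for `ε₂`, `x0` = maximum of the `x0` of `EXPx` for `H = 3P` and
   a number `≥ 4P/ε`.
-/

set_option autoImplicit false

namespace MRC

open Finset MRP MRB

private theorem x03_mA (x : ℕ) (b : ℕ → ℝ) (hb : ∀ m, |b m| ≤ 1) : |mA x b| ≤ 1 := by
  unfold mA
  rcases Nat.eq_zero_or_pos x with rfl | hx
  · simp
  · have hx' : (0 : ℝ) < x := by exact_mod_cast hx
    rw [abs_div, abs_of_pos hx', div_le_one hx']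
    refine le_trans (Finset.abs_sum_le_sum_abs _ _) ?_
    refine le_trans (Finset.sum_le_sum fun n _ => hb (Om n)) ?_
    simp

private theorem x03_norm (x : ℝ) : ‖eC x‖ = 1 := by
  unfold eC
  have h : 2 * (Real.pi : ℂ) * Complex.I * (x : ℂ) = ((2 * Real.pi * x : ℝ) : ℂ) * Complex.I := by
    push_cast
    ring
  rw [h, Complex.norm_exp_ofReal_mul_I]

private theorem x03_shift1 (F : ℕ → ℝ) (x : ℕ) :
    ∑ n ∈ Finset.Icc 1 x, F n + F (x + 1) = F 1 + ∑ n ∈ Finset.Icc 1 x, F (n + 1) := by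
  induction x with
  | zero => simp
  | succ x ih =>
    rw [Finset.sum_Icc_succ_top (by omega), Finset.sum_Icc_succ_top (by omega), ih]
    ring

private theorem x03_shift (F : ℕ → ℝ) (B : ℝ) (h0 : ∀ n, 0 ≤ F n) (hB : ∀ n, F n ≤ B) (x : ℕ) :
    ∀ s : ℕ, ∑ n ∈ Finset.Icc 1 x, F n ≤ (s : ℝ) * B + ∑ n ∈ Finset.Icc 1 x, F (n + s) := by
  intro s
  induction s with
  | zero => simp
  | succ s ih =>
    have h1 := x03_shift1 (fun n => F (n + s)) x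
    have h2 := h0 (x + 1 + s)
    have h3 := hB (1 + s)
    have h4 : ∑ n ∈ Finset.Icc 1 x, F (n + (s + 1)) = ∑ n ∈ Finset.Icc 1 x, F (n + 1 + s) :=
      Finset.sum_congr rfl fun n _ => by rw [add_right_comm, add_assoc]
    rw [h4]
    push_cast
    linarith

private theorem x03_one (P n : ℕ) (hP : 1 ≤ P) (σ f : ℕ → ℝ) (hf : ∀ m, |f m| ≤ 2) (κ : ℝ)
    (hκ : 0 < κ) :
    ∑ s ∈ Finset.Icc 1 P, (∑ p ∈ dyP P, σ p * f (n + s + p)) ^ 2 ≤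
      κ * (12 * P) + (1 / κ) * (6 * P) * ((1 / ((6 * P : ℕ) : ℝ)) *
        ∑ a ∈ Finset.range (6 * P), ‖SPs σ P ((a : ℝ) / ((6 * P : ℕ) : ℝ))‖ ^ 4 *
          ‖∑ j ∈ Finset.Icc 1 (3 * P), (f (n + j) : ℂ) *
            eC ((j : ℝ) * ((a : ℝ) / ((6 * P : ℕ) : ℝ)))‖) := by
  have hPR : (0 : ℝ) < P := by exact_mod_cast hP
  have h1 := corr_le P hP σ (fun j => f (n + j))
  have h2 : ∑ s ∈ Finset.Icc 1 P, (∑ p ∈ dyP P, σ p * f (n + s + p)) ^ 2 =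
      ∑ s ∈ Finset.Icc 1 P, (∑ p ∈ dyP P, σ p * (fun j => f (n + j)) (s + p)) ^ 2 := by
    refine Finset.sum_congr rfl fun s _ => ?_
    congr 1
    refine Finset.sum_congr rfl fun p _ => ?_
    simp only [add_assoc]
  rw [h2]
  refine le_trans h1 ?_
  have hN : (0 : ℝ) < ((6 * P : ℕ) : ℝ) := by
    push_cast
    positivity
  have hpar := parseval_Icc (3 * P) (6 * P) (by omega) (by omega) (fun j => f (n + j))
  have h3 : ∀ a ∈ Finset.range (6 * P),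
      ‖SPs σ P ((a : ℝ) / ((6 * P : ℕ) : ℝ))‖ ^ 2 *
          ‖∑ j ∈ Finset.Icc 1 (3 * P), (f (n + j) : ℂ) *
            eC ((j : ℝ) * ((a : ℝ) / ((6 * P : ℕ) : ℝ)))‖ ^ 2 ≤
        κ * ‖∑ j ∈ Finset.Icc 1 (3 * P), (f (n + j) : ℂ) *
            eC ((j : ℝ) * ((a : ℝ) / ((6 * P : ℕ) : ℝ)))‖ ^ 2 +
        (1 / κ) * (6 * P) * (‖SPs σ P ((a : ℝ) / ((6 * P : ℕ) : ℝ))‖ ^ 4 *
          ‖∑ j ∈ Finset.Icc 1 (3 * P), (f (n + j) : ℂ) *
            eC ((j : ℝ) * ((a : ℝ) / ((6 * P : ℕ) : ℝ)))‖) := by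
    intro a _
    set S : ℝ := ‖SPs σ P ((a : ℝ) / ((6 * P : ℕ) : ℝ))‖ with hS
    set G : ℝ := ‖∑ j ∈ Finset.Icc 1 (3 * P), (f (n + j) : ℂ) *
            eC ((j : ℝ) * ((a : ℝ) / ((6 * P : ℕ) : ℝ)))‖ with hG
    have hG0 : 0 ≤ G := norm_nonneg _
    have hG6 : G ≤ 6 * P := by
      refine le_trans (norm_sum_le _ _) ?_
      refine le_trans (Finset.sum_le_sum (g := fun _ => (2 : ℝ)) fun j _ => ?_) ?_
      · rw [norm_mul, x03_norm, mul_one, Complex.norm_real, Real.norm_eq_abs]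
        exact hf _
      · rw [Finset.sum_const, Nat.card_Icc, nsmul_eq_mul, Nat.add_sub_cancel]
        push_cast
        linarith
    have h4 : S ^ 2 ≤ κ + (1 / κ) * S ^ 4 := by
      have h5 : 0 ≤ (1 / κ) * ((S ^ 2 - κ / 2) ^ 2 + 3 / 4 * κ ^ 2) := by positivity
      have h6 : (1 / κ) * ((S ^ 2 - κ / 2) ^ 2 + 3 / 4 * κ ^ 2) =
          κ + (1 / κ) * S ^ 4 - S ^ 2 := by
        field_simp
        ring
      linarith
    have h7 : S ^ 2 * G ^ 2 ≤ (κ + (1 / κ) * S ^ 4) * G ^ 2 :=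
      mul_le_mul_of_nonneg_right h4 (by positivity)
    have h8 : (1 / κ) * S ^ 4 * G ^ 2 ≤ (1 / κ) * S ^ 4 * (6 * P * G) := by
      refine mul_le_mul_of_nonneg_left ?_ (by positivity)
      nlinarith
    calc S ^ 2 * G ^ 2 ≤ (κ + (1 / κ) * S ^ 4) * G ^ 2 := h7
      _ = κ * G ^ 2 + (1 / κ) * S ^ 4 * G ^ 2 := by ring
      _ ≤ κ * G ^ 2 + (1 / κ) * S ^ 4 * (6 * P * G) := by linarith
      _ = κ * G ^ 2 + (1 / κ) * (6 * P) * (S ^ 4 * G) := by ring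
  have h9 := mul_le_mul_of_nonneg_left (Finset.sum_le_sum h3)
    (show (0 : ℝ) ≤ 1 / ((6 * P : ℕ) : ℝ) by positivity)
  refine le_trans h9 ?_
  rw [Finset.sum_add_distrib, ← Finset.mul_sum, ← Finset.mul_sum, mul_add]
  have h10 : 1 / ((6 * P : ℕ) : ℝ) * (κ * ∑ a ∈ Finset.range (6 * P),
      ‖∑ j ∈ Finset.Icc 1 (3 * P), (f (n + j) : ℂ) *
            eC ((j : ℝ) * ((a : ℝ) / ((6 * P : ℕ) : ℝ)))‖ ^ 2) ≤ κ * (12 * P) := by
    have h11 : ∑ j ∈ Finset.Icc 1 (3 * P), (f (n + j)) ^ 2 ≤ 12 * P := by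
      refine le_trans (Finset.sum_le_sum (g := fun _ => (4 : ℝ)) fun j _ => ?_) ?_
      · have h12 := hf (n + j)
        rw [← sq_abs]
        nlinarith [abs_nonneg (f (n + j))]
      · rw [Finset.sum_const, Nat.card_Icc, nsmul_eq_mul, Nat.add_sub_cancel]
        push_cast
        linarith
    calc 1 / ((6 * P : ℕ) : ℝ) * (κ * ∑ a ∈ Finset.range (6 * P),
      ‖∑ j ∈ Finset.Icc 1 (3 * P), (f (n + j) : ℂ) *
            eC ((j : ℝ) * ((a : ℝ) / ((6 * P : ℕ) : ℝ)))‖ ^ 2) =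
        κ * (1 / ((6 * P : ℕ) : ℝ) * ∑ a ∈ Finset.range (6 * P),
      ‖∑ j ∈ Finset.Icc 1 (3 * P), (f (n + j) : ℂ) *
            eC ((j : ℝ) * ((a : ℝ) / ((6 * P : ℕ) : ℝ)))‖ ^ 2) := by ring
      _ = κ * ∑ j ∈ Finset.Icc 1 (3 * P), (f (n + j)) ^ 2 := by rw [hpar]
      _ ≤ κ * (12 * P) := mul_le_mul_of_nonneg_left h11 hκ.le
  have h13 : ∀ Z : ℝ, 1 / ((6 * P : ℕ) : ℝ) * ((1 / κ) * (6 * P) * Z) =
      (1 / κ) * (6 * P) * (1 / ((6 * P : ℕ) : ℝ) * Z) := fun Z => by ring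
  rw [h13]
  linarith

private theorem x03_W (C ε₂ : ℝ) (hC : 0 < C) (P x : ℕ) (hP : 2 ≤ P) (σ b : ℕ → ℝ)
    (hσ : ∀ p, |σ p| ≤ 1) (hb : ∀ m, |b m| ≤ 1) (hε₂ : 0 < ε₂)
    (hen : ((En P : ℕ) : ℝ) ≤ C * ((dyP P).card : ℝ) ^ 4 / P)
    (hexp : ∀ α : ℝ, ∑ n ∈ Finset.Icc 1 x,
        ‖∑ j ∈ Finset.Icc 1 (3 * P), ((b (Om (n + j)) - mA x b : ℝ) : ℂ) * eC ((j : ℝ) * α)‖ ≤
          ε₂ * ((3 * P : ℕ) : ℝ) * x) (τ : ℝ) (hτ : 0 < τ) (hπ : 0 < ((dyP P).card : ℝ)) :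
    ∑ n ∈ Finset.Icc 1 x, ∑ s ∈ Finset.Icc 1 P,
      (∑ p ∈ dyP P, σ p * (b (Om (n + s + p)) - mA x b)) ^ 2 ≤
      (12 * τ ^ 2 + 18 * C * ε₂ / τ ^ 2) * ((dyP P).card : ℝ) ^ 2 * P * x := by
  have hPR : (0 : ℝ) < P := by
    have : 0 < P := by omega
    exact_mod_cast this
  set D : ℝ := ((dyP P).card : ℝ) with hD
  have hκ : 0 < τ ^ 2 * D ^ 2 := by positivity
  have hf : ∀ m, |(fun m => b (Om m) - mA x b) m| ≤ 2 := by
    intro m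
    have h1 := hb (Om m)
    have h2 := x03_mA x b hb
    have h3 := abs_sub (b (Om m)) (mA x b)
    simp only
    linarith
  have h1 : ∀ n ∈ Finset.Icc 1 x, ∑ s ∈ Finset.Icc 1 P,
      (∑ p ∈ dyP P, σ p * (b (Om (n + s + p)) - mA x b)) ^ 2 ≤ _ := fun n _ =>
    x03_one P n (by omega) σ (fun m => b (Om m) - mA x b) hf (τ ^ 2 * D ^ 2) hκ
  refine le_trans (Finset.sum_le_sum h1) ?_
  rw [Finset.sum_add_distrib, Finset.sum_const, Nat.card_Icc, Nat.add_sub_cancel, nsmul_eq_mul,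
    ← Finset.mul_sum, ← Finset.mul_sum, Finset.sum_comm]
  have h2 : ∑ a ∈ Finset.range (6 * P), ∑ n ∈ Finset.Icc 1 x,
      ‖SPs σ P ((a : ℝ) / ((6 * P : ℕ) : ℝ))‖ ^ 4 *
          ‖∑ j ∈ Finset.Icc 1 (3 * P), (((fun m => b (Om m) - mA x b) (n + j) : ℝ) : ℂ) *
            eC ((j : ℝ) * ((a : ℝ) / ((6 * P : ℕ) : ℝ)))‖ ≤
      ∑ a ∈ Finset.range (6 * P), ‖SPs σ P ((a : ℝ) / ((6 * P : ℕ) : ℝ))‖ ^ 4 *
        (ε₂ * ((3 * P : ℕ) : ℝ) * x) := by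
    refine Finset.sum_le_sum fun a _ => ?_
    rw [← Finset.mul_sum]
    exact mul_le_mul_of_nonneg_left (hexp _) (by positivity)
  rw [← Finset.sum_mul] at h2
  have h3 := fourth_le P (by omega) σ hσ
  have hN : (0 : ℝ) < ((6 * P : ℕ) : ℝ) := by
    push_cast
    positivity
  have h4 : 1 / ((6 * P : ℕ) : ℝ) * ∑ a ∈ Finset.range (6 * P), ∑ n ∈ Finset.Icc 1 x,
      ‖SPs σ P ((a : ℝ) / ((6 * P : ℕ) : ℝ))‖ ^ 4 *
          ‖∑ j ∈ Finset.Icc 1 (3 * P), (((fun m => b (Om m) - mA x b) (n + j) : ℝ) : ℂ) *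
            eC ((j : ℝ) * ((a : ℝ) / ((6 * P : ℕ) : ℝ)))‖ ≤
      (C * D ^ 4 / P) * (ε₂ * (3 * P) * x) := by
    refine le_trans (mul_le_mul_of_nonneg_left h2 (by positivity)) ?_
    rw [← mul_assoc]
    have h5 : (0 : ℝ) ≤ ε₂ * ((3 * P : ℕ) : ℝ) * x := by positivity
    refine le_trans (mul_le_mul_of_nonneg_right (le_trans h3 hen) h5) (le_of_eq ?_)
    push_cast
    ring
  have h6 : 1 / (τ ^ 2 * D ^ 2) * (6 * P) * (1 / ((6 * P : ℕ) : ℝ) *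
      ∑ a ∈ Finset.range (6 * P), ∑ n ∈ Finset.Icc 1 x,
      ‖SPs σ P ((a : ℝ) / ((6 * P : ℕ) : ℝ))‖ ^ 4 *
          ‖∑ j ∈ Finset.Icc 1 (3 * P), (((fun m => b (Om m) - mA x b) (n + j) : ℝ) : ℂ) *
            eC ((j : ℝ) * ((a : ℝ) / ((6 * P : ℕ) : ℝ)))‖) ≤
      1 / (τ ^ 2 * D ^ 2) * (6 * P) * ((C * D ^ 4 / P) * (ε₂ * (3 * P) * x)) :=
    mul_le_mul_of_nonneg_left h4 (by positivity)
  have h7 : 1 / (τ ^ 2 * D ^ 2) * (6 * P) * ((C * D ^ 4 / P) * (ε₂ * (3 * P) * x)) =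
      18 * C * ε₂ / τ ^ 2 * D ^ 2 * P * x := by
    field_simp
    ring
  have h8 : (x : ℝ) * (τ ^ 2 * D ^ 2 * (12 * P)) = 12 * τ ^ 2 * D ^ 2 * P * x := by ring
  have h9 : (12 * τ ^ 2 + 18 * C * ε₂ / τ ^ 2) * D ^ 2 * P * x =
      12 * τ ^ 2 * D ^ 2 * P * x + 18 * C * ε₂ / τ ^ 2 * D ^ 2 * P * x := by ring
  rw [h8, h9, ← h7]
  linarith

theorem circx_of_exp (h : EXPx) : CIRCx := by
  intro ε hε
  obtain ⟨C, hC, hen⟩ := energy_le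
  have hτ : 0 < ε / 20 := by positivity
  have hε₂ : 0 < (ε / 20) ^ 2 * ε ^ 2 / (400 * (C + 1)) := by positivity
  obtain ⟨H0, hH0⟩ := h _ hε₂
  refine ⟨max 2 H0, fun P hP => ?_⟩
  have hP2 : 2 ≤ P := le_trans (le_max_left _ _) hP
  have hPH : H0 ≤ 3 * P := le_trans (le_trans (le_max_right _ _) hP) (by omega)
  have hPR : (0 : ℝ) < P := by
    have : 0 < P := by omega
    exact_mod_cast this
  obtain ⟨x0, hx0⟩ := hH0 (3 * P) hPH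
  refine ⟨max x0 ⌈4 * P / ε⌉₊, fun x hx σ A b hσ hA hb => ?_⟩
  have hx1 : x0 ≤ x := le_trans (le_max_left _ _) hx
  have hx2 : 4 * P / ε ≤ (x : ℝ) := le_trans (Nat.le_ceil _) (by
    exact_mod_cast le_trans (le_max_right _ _) hx)
  rcases Nat.eq_zero_or_pos (dyP P).card with h0 | hpos
  · rw [Finset.card_eq_zero.1 h0]
    simp
  have hD : (0 : ℝ) < ((dyP P).card : ℝ) := by exact_mod_cast hpos
  set D : ℝ := ((dyP P).card : ℝ) with hDd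
  set g : ℕ → ℝ := fun n => ∑ p ∈ dyP P, σ p * (b (Om (n + p)) - mA x b) with hg
  have hgB : ∀ n, |g n| ≤ 2 * D := by
    intro n
    refine le_trans (Finset.abs_sum_le_sum_abs _ _) ?_
    refine le_trans (Finset.sum_le_sum (g := fun _ => (2 : ℝ)) fun p _ => ?_) ?_
    · rw [abs_mul]
      have h1 := hb (Om (n + p))
      have h2 := x03_mA x b hb
      have h3 := abs_sub (b (Om (n + p))) (mA x b)
      have h4 := hσ p
      have h5 : |b (Om (n + p)) - mA x b| ≤ 2 := by linarith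
      calc |σ p| * |b (Om (n + p)) - mA x b| ≤ 1 * 2 :=
            mul_le_mul h4 h5 (abs_nonneg _) zero_le_one
        _ = 2 := by norm_num
    · rw [Finset.sum_const, nsmul_eq_mul, mul_comm]
  have h1 : |∑ n ∈ Finset.Icc 1 x, ∑ p ∈ dyP P, σ p * (A n * (b (Om (n + p)) - mA x b))| ≤
      ∑ n ∈ Finset.Icc 1 x, |g n| := by
    refine le_trans (Finset.abs_sum_le_sum_abs _ _) ?_
    refine Finset.sum_le_sum fun n _ => ?_
    have h2 : ∑ p ∈ dyP P, σ p * (A n * (b (Om (n + p)) - mA x b)) = A n * g n := by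
      rw [hg, Finset.mul_sum]
      exact Finset.sum_congr rfl fun p _ => by ring
    rw [h2, abs_mul]
    exact mul_le_of_le_one_left (abs_nonneg _) (hA n)
  refine le_trans h1 ?_
  set T : ℝ := ∑ n ∈ Finset.Icc 1 x, |g n| with hT
  set U : ℝ := ∑ n ∈ Finset.Icc 1 x, ∑ s ∈ Finset.Icc 1 P, |g (n + s)| with hU
  have hU0 : 0 ≤ U := Finset.sum_nonneg fun n _ => Finset.sum_nonneg fun s _ => abs_nonneg _
  have h3 : (P : ℝ) * T ≤ U + 2 * D * P ^ 2 := by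
    have h4 : ∀ s ∈ Finset.Icc 1 P, T ≤ (P : ℝ) * (2 * D) +
        ∑ n ∈ Finset.Icc 1 x, |g (n + s)| := by
      intro s hs
      have h5 := x03_shift (fun n => |g n|) (2 * D) (fun n => abs_nonneg _) hgB x s
      have h6 : (s : ℝ) * (2 * D) ≤ (P : ℝ) * (2 * D) := by
        have h7 : (s : ℝ) ≤ P := by exact_mod_cast (Finset.mem_Icc.1 hs).2
        exact mul_le_mul_of_nonneg_right h7 (by positivity)
      linarith
    have h8 := Finset.sum_le_sum h4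
    rw [Finset.sum_const, Nat.card_Icc, Nat.add_sub_cancel, nsmul_eq_mul,
      Finset.sum_add_distrib, Finset.sum_const, Nat.card_Icc, Nat.add_sub_cancel, nsmul_eq_mul,
      Finset.sum_comm] at h8
    nlinarith
  have h9 := x03_W C _ hC P x hP2 σ b hσ hb hε₂ (hen P hP2) (fun α => hx0 x hx1 b hb α)
    (ε / 20) hτ hD
  have h10 : U ^ 2 ≤ (x * P : ℝ) * ∑ n ∈ Finset.Icc 1 x, ∑ s ∈ Finset.Icc 1 P,
      (g (n + s)) ^ 2 := by
    have h11 := sq_sum_le_card_mul_sum_sq (s := Finset.Icc 1 x ×ˢ Finset.Icc 1 P)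
      (f := fun y : ℕ × ℕ => |g (y.1 + y.2)|)
    rw [Finset.sum_product, Finset.sum_product, Finset.card_product, Nat.card_Icc, Nat.card_Icc,
      Nat.add_sub_cancel, Nat.add_sub_cancel] at h11
    simp only [sq_abs] at h11
    push_cast at h11
    exact h11
  have h12 : 12 * (ε / 20) ^ 2 + 18 * C * ((ε / 20) ^ 2 * ε ^ 2 / (400 * (C + 1))) /
      (ε / 20) ^ 2 ≤ ε ^ 2 / 4 := by
    have h13 : 18 * C * ((ε / 20) ^ 2 * ε ^ 2 / (400 * (C + 1))) / (ε / 20) ^ 2 =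
        18 / 400 * ε ^ 2 * (C / (C + 1)) := by
      field_simp
    have h14 : C / (C + 1) ≤ 1 := (div_le_one (by linarith)).2 (by linarith)
    have h15 : 18 / 400 * ε ^ 2 * (C / (C + 1)) ≤ 18 / 400 * ε ^ 2 * 1 :=
      mul_le_mul_of_nonneg_left h14 (by positivity)
    rw [h13]
    nlinarith [sq_nonneg ε]
  have h16 : U ^ 2 ≤ (ε / 2 * D * P * x) ^ 2 := by
    refine le_trans h10 ?_
    refine le_trans (mul_le_mul_of_nonneg_left h9 (by positivity)) ?_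
    have h17 : (12 * (ε / 20) ^ 2 + 18 * C * ((ε / 20) ^ 2 * ε ^ 2 / (400 * (C + 1))) /
      (ε / 20) ^ 2) * D ^ 2 * P * x ≤ (ε ^ 2 / 4) * D ^ 2 * P * x := by
      gcongr
    refine le_trans (mul_le_mul_of_nonneg_left h17 (by positivity)) (le_of_eq ?_)
    ring
  have h18 : U ≤ ε / 2 * D * P * x :=
    (pow_le_pow_iff_left₀ hU0 (by positivity) two_ne_zero).1 h16
  have h19 : (P : ℝ) * T ≤ P * (ε / 2 * D * x + 2 * D * P) := by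
    calc (P : ℝ) * T ≤ U + 2 * D * P ^ 2 := h3
      _ ≤ ε / 2 * D * P * x + 2 * D * P ^ 2 := by linarith
      _ = P * (ε / 2 * D * x + 2 * D * P) := by ring
  have h20 : T ≤ ε / 2 * D * x + 2 * D * P := le_of_mul_le_mul_left h19 hPR
  have h21 : 4 * (P : ℝ) ≤ ε * x := by
    rw [div_le_iff₀ hε] at hx2
    linarith
  have h22 : 2 * D * P ≤ ε / 2 * D * x := by nlinarith
  linarith

end MRC
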