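import Pool.Agent.Helper33.MRC.Defs

/-!
# MRC-X10: reduced residue classes from characters

Proof. For `r` prime to `q` and a natural number `m`: `1_{m ≡ r (q)} = (1/φ(q)) ∑_χ conj χ(r) χ(m)`
(`DirichletCharacter.sum_char_inv_mul_char_eq`, over `ℂ`). Hence, with `s(n) = ∑_{j≤H, n+j≡r} b(Ω(n+j))`,
`φ(q) |s(n) - (H/q) m| ≤ |∑_{j≤H, (n+j,q)=1} b(Ω(n+j)) - H (φ(q)/q) m| + ∑_{χ≠1} ‖∑_{j≤H} b(Ω(n+j)) χ(n+j)‖`,
`m = mA x b`. Apply `MRCHI0x` and `MRCHI1x` with `ε` for `q` and all the (finitely many) nonprincipal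
characters, `H0` = the maximum of their `H0`; for given `H`, `x0` = the maximum of their `x0`. The sum is
`≤ φ(q) ε H x`.
-/

set_option autoImplicit false

namespace MRC

open Finset MRP MRB

private theorem class_identity (q : ℕ) [NeZero q] (H n r : ℕ) (b : ℕ → ℝ) (hr : Nat.Coprime r q) :
    ((Nat.totient q : ℕ) : ℂ) *
      ((∑ j ∈ (Finset.Icc 1 H).filter (fun j => (n + j) % q = r % q), b (Om (n + j)) : ℝ) : ℂ) =
    ((∑ j ∈ (Finset.Icc 1 H).filter (fun j => Nat.Coprime (n + j) q), b (Om (n + j)) : ℝ) : ℂ) +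
      ∑ χ ∈ (Finset.univ : Finset (DirichletCharacter ℂ q)).erase 1, χ ((r : ZMod q)⁻¹) *
        ∑ j ∈ Finset.Icc 1 H, ((b (Om (n + j)) : ℝ) : ℂ) * χ ((n + j : ℕ) : ZMod q) := by
  have hru : IsUnit (r : ZMod q) := (ZMod.isUnit_iff_coprime r q).2 hr
  have hinv : IsUnit ((r : ZMod q)⁻¹) :=
    IsUnit.of_mul_eq_one _ (ZMod.inv_mul_of_unit _ hru)
  have h1 : ((Nat.totient q : ℕ) : ℂ) *
      ((∑ j ∈ (Finset.Icc 1 H).filter (fun j => (n + j) % q = r % q), b (Om (n + j)) : ℝ) : ℂ) =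
      ∑ χ : DirichletCharacter ℂ q, χ ((r : ZMod q)⁻¹) *
        ∑ j ∈ Finset.Icc 1 H, ((b (Om (n + j)) : ℝ) : ℂ) * χ ((n + j : ℕ) : ZMod q) := by
    simp only [Finset.mul_sum]
    rw [Finset.sum_comm, Complex.ofReal_sum, Finset.sum_filter, Finset.mul_sum]
    refine Finset.sum_congr rfl fun j _ => ?_
    have h2 : ∑ χ : DirichletCharacter ℂ q, χ ((r : ZMod q)⁻¹) *
        (((b (Om (n + j)) : ℝ) : ℂ) * χ ((n + j : ℕ) : ZMod q)) =
        ((b (Om (n + j)) : ℝ) : ℂ) * ∑ χ : DirichletCharacter ℂ q, χ ((r : ZMod q)⁻¹) *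
          χ ((n + j : ℕ) : ZMod q) := by
      rw [Finset.mul_sum]
      refine Finset.sum_congr rfl fun χ _ => ?_
      ring
    rw [h2, DirichletCharacter.sum_char_inv_mul_char_eq ℂ hru]
    by_cases h : (n + j) % q = r % q
    · rw [if_pos h, if_pos ((ZMod.natCast_eq_natCast_iff' _ _ _).2 h.symm)]
      ring
    · rw [if_neg h, if_neg (fun h' => h ((ZMod.natCast_eq_natCast_iff' _ _ _).1 h').symm)]
      ring
  rw [h1, ← Finset.add_sum_erase _ _ (Finset.mem_univ (1 : DirichletCharacter ℂ q))]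
  congr 1
  rw [MulChar.one_apply hinv, one_mul, Complex.ofReal_sum, Finset.sum_filter]
  refine Finset.sum_congr rfl fun j _ => ?_
  by_cases h : Nat.Coprime (n + j) q
  · rw [if_pos h, MulChar.one_apply ((ZMod.isUnit_iff_coprime _ _).2 h), mul_one]
  · rw [if_neg h, MulChar.map_nonunit _ (fun h' => h ((ZMod.isUnit_iff_coprime _ _).1 h')),
      mul_zero]

private theorem class_bound (q : ℕ) [NeZero q] (H n r : ℕ) (b : ℕ → ℝ) (hr : Nat.Coprime r q)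
    (m : ℝ) :
    (Nat.totient q : ℝ) *
      |(∑ j ∈ (Finset.Icc 1 H).filter (fun j => (n + j) % q = r % q), b (Om (n + j))) -
        (H : ℝ) / (q : ℝ) * m| ≤
    |(∑ j ∈ (Finset.Icc 1 H).filter (fun j => Nat.Coprime (n + j) q), b (Om (n + j))) -
          (H : ℝ) * ((Nat.totient q : ℝ) / (q : ℝ)) * m| +
      ∑ χ ∈ (Finset.univ : Finset (DirichletCharacter ℂ q)).erase 1,
        ‖∑ j ∈ Finset.Icc 1 H, ((b (Om (n + j)) : ℝ) : ℂ) * χ ((n + j : ℕ) : ZMod q)‖ := by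
  have h1 := class_identity q H n r b hr
  set S := ∑ j ∈ (Finset.Icc 1 H).filter (fun j => (n + j) % q = r % q), b (Om (n + j)) with hS
  set A := ∑ j ∈ (Finset.Icc 1 H).filter (fun j => Nat.Coprime (n + j) q), b (Om (n + j)) with hA
  have h2 : (((Nat.totient q : ℝ) * (S - (H : ℝ) / (q : ℝ) * m) : ℝ) : ℂ) =
      ((A - (H : ℝ) * ((Nat.totient q : ℝ) / (q : ℝ)) * m : ℝ) : ℂ) +
      ∑ χ ∈ (Finset.univ : Finset (DirichletCharacter ℂ q)).erase 1, χ ((r : ZMod q)⁻¹) *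
        ∑ j ∈ Finset.Icc 1 H, ((b (Om (n + j)) : ℝ) : ℂ) * χ ((n + j : ℕ) : ZMod q) := by
    have h3 : (((Nat.totient q : ℝ) * (S - (H : ℝ) / (q : ℝ) * m) : ℝ) : ℂ) =
        ((Nat.totient q : ℕ) : ℂ) * (S : ℂ) -
          (((H : ℝ) * ((Nat.totient q : ℝ) / (q : ℝ)) * m : ℝ) : ℂ) := by
      push_cast
      ring
    rw [h3, h1]
    push_cast
    ring
  have h4 : (Nat.totient q : ℝ) * |S - (H : ℝ) / (q : ℝ) * m| =
      ‖(((Nat.totient q : ℝ) * (S - (H : ℝ) / (q : ℝ) * m) : ℝ) : ℂ)‖ := by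
    rw [Complex.norm_real, Real.norm_eq_abs, abs_mul,
      abs_of_nonneg (show (0 : ℝ) ≤ (Nat.totient q : ℝ) from Nat.cast_nonneg _)]
  rw [h4, h2]
  refine (norm_add_le _ _).trans ?_
  refine add_le_add (le_of_eq ?_) ((norm_sum_le _ _).trans (Finset.sum_le_sum fun χ _ => ?_))
  · rw [Complex.norm_real, Real.norm_eq_abs]
  · rw [norm_mul]
    exact mul_le_of_le_one_left (norm_nonneg _) (DirichletCharacter.norm_le_one χ _)

theorem copx_of (h0 : MRCHI0x) (h1 : MRCHI1x) : COPx := by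
  classical
  intro q hq ε hε
  have : NeZero q := ⟨by omega⟩
  obtain ⟨Ha, hHa⟩ := h0 q hq ε hε
  have h1' : ∀ χ : DirichletCharacter ℂ q, ∃ Hc : ℕ, χ ≠ 1 → ∀ H : ℕ, Hc ≤ H → ∃ x0 : ℕ, ∀ x : ℕ,
      x0 ≤ x → ∀ b : ℕ → ℝ, (∀ m, |b m| ≤ 1) → ∑ n ∈ Finset.Icc 1 x,
        ‖∑ j ∈ Finset.Icc 1 H, ((b (Om (n + j)) : ℝ) : ℂ) * χ ((n + j : ℕ) : ZMod q)‖ ≤
          ε * H * x := by
    intro χ
    by_cases hχ : χ = 1
    · exact ⟨0, fun h => absurd hχ h⟩
    · obtain ⟨Hc, hc⟩ := h1 q hq χ hχ ε hε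
      exact ⟨Hc, fun _ => hc⟩
  choose Hc hHc using h1'
  refine ⟨max Ha (Finset.univ.sup Hc), fun H hH => ?_⟩
  obtain ⟨xa, hxa⟩ := hHa H ((le_max_left _ _).trans hH)
  have h2' : ∀ χ : DirichletCharacter ℂ q, ∃ xc : ℕ, χ ≠ 1 → ∀ x : ℕ,
      xc ≤ x → ∀ b : ℕ → ℝ, (∀ m, |b m| ≤ 1) → ∑ n ∈ Finset.Icc 1 x,
        ‖∑ j ∈ Finset.Icc 1 H, ((b (Om (n + j)) : ℝ) : ℂ) * χ ((n + j : ℕ) : ZMod q)‖ ≤
          ε * H * x := by
    intro χ
    by_cases hχ : χ = 1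
    · exact ⟨0, fun h => absurd hχ h⟩
    · obtain ⟨xc, hc⟩ := hHc χ hχ H
        (((Finset.le_sup (Finset.mem_univ χ)).trans (le_max_right _ _)).trans hH)
      exact ⟨xc, fun _ => hc⟩
  choose xc hxc using h2'
  refine ⟨max xa (Finset.univ.sup xc), fun x hx b hb r hr => ?_⟩
  have hφ : (0 : ℝ) < Nat.totient q := by exact_mod_cast Nat.totient_pos.2 hq
  have hcard : (Finset.univ : Finset (DirichletCharacter ℂ q)).card = Nat.totient q := by
    rw [Finset.card_univ, ← Nat.card_eq_fintype_card,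
      DirichletCharacter.card_eq_totient_of_hasEnoughRootsOfUnity]
  refine le_of_mul_le_mul_left ?_ hφ
  calc (Nat.totient q : ℝ) * ∑ n ∈ Finset.Icc 1 x,
        |(∑ j ∈ (Finset.Icc 1 H).filter (fun j => (n + j) % q = r % q), b (Om (n + j))) -
          (H : ℝ) / (q : ℝ) * mA x b|
      ≤ ∑ n ∈ Finset.Icc 1 x,
        (|(∑ j ∈ (Finset.Icc 1 H).filter (fun j => Nat.Coprime (n + j) q), b (Om (n + j))) -
          (H : ℝ) * ((Nat.totient q : ℝ) / (q : ℝ)) * mA x b| +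
        ∑ χ ∈ (Finset.univ : Finset (DirichletCharacter ℂ q)).erase 1,
          ‖∑ j ∈ Finset.Icc 1 H, ((b (Om (n + j)) : ℝ) : ℂ) * χ ((n + j : ℕ) : ZMod q)‖) := by
        rw [Finset.mul_sum]
        exact Finset.sum_le_sum fun n _ => class_bound q H n r b hr _
    _ ≤ ε * H * x + ∑ χ ∈ (Finset.univ : Finset (DirichletCharacter ℂ q)).erase 1,
          ε * H * x := by
        rw [Finset.sum_add_distrib, Finset.sum_comm]
        refine add_le_add (hxa x ((le_max_left _ _).trans hx) b hb) (Finset.sum_le_sum fun χ hχ => ?_)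
        exact hxc χ (Finset.ne_of_mem_erase hχ) x
          (((Finset.le_sup (Finset.mem_univ χ)).trans (le_max_right _ _)).trans hx) b hb
    _ = (Nat.totient q : ℝ) * (ε * H * x) := by
        rw [Finset.sum_const, Finset.card_erase_of_mem (Finset.mem_univ _), hcard, nsmul_eq_mul,
          Nat.cast_sub (Nat.totient_pos.2 hq)]
        push_cast
        ring

end MRC
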